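import Mathlib

/-!
# Sylvester's law of inertia for rational symmetric forms of finite rank
-/

open Finset

namespace Pool.Agent.W539.Ker

variable {M : Type*} [AddCommGroup M] [Module ℚ M]

/-- There is an orthogonal family of `r` vectors on which the form is positive. -/
def PosFam (β : M → M → ℚ) (r : ℕ) : Prop :=
  ∃ z : Fin r → M, (∀ i, 0 < β (z i) (z i)) ∧ ∀ i j, i ≠ j → β (z i) (z j) = 0

/-- The largest number of vectors in an orthogonal family on which the form is positive. -/
noncomputable def posIdx (β : M → M → ℚ) : ℕ := sSup {r | PosFam β r}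

/-- A maximal orthogonal family of anisotropic vectors. -/
structure OM (B : M →ₗ[ℚ] M →ₗ[ℚ] ℚ) {ι : Type*} (x : ι → M) : Prop where
  ne : ∀ i, B (x i) (x i) ≠ 0
  orth : ∀ i j, i ≠ j → B (x i) (x j) = 0
  max : ∀ u, (∀ i, B u (x i) = 0) → B u u = 0

variable {B : M →ₗ[ℚ] M →ₗ[ℚ] ℚ}

lemma OM.neg {ι : Type*} {x : ι → M} (h : OM B x) : OM (-B) x where
  ne i := by
    rw [LinearMap.neg_apply, LinearMap.neg_apply, neg_ne_zero]; exact h.ne i
  orth i j hij := by rw [LinearMap.neg_apply, LinearMap.neg_apply, h.orth i j hij, neg_zero]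
  max u hu := by
    rw [LinearMap.neg_apply, LinearMap.neg_apply, h.max u (fun i => ?_), neg_zero]
    have := hu i
    rwa [LinearMap.neg_apply, LinearMap.neg_apply, neg_eq_zero] at this

/-- **Sylvester's law of inertia.** -/
theorem OM.sylvester (hB : ∀ x y, B x y = B y x) {ι : Type*} [Fintype ι] {x : ι → M}
    (h : OM B x) {r : ℕ} {z : Fin r → M} (hz : ∀ i, 0 < B (z i) (z i))
    (hz0 : ∀ i j, i ≠ j → B (z i) (z j) = 0) :
    r ≤ (univ.filter (fun i => 0 < B (x i) (x i))).card := by
  classical
  by_contra hcon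
  have hcon := not_le.1 hcon
  let comb : (Fin r → ℚ) →ₗ[ℚ] M := Fintype.linearCombination ℚ z
  have hcomb : ∀ c, comb c = ∑ i, c i • z i := fun c => Fintype.linearCombination_apply ℚ z c
  let F : (Fin r → ℚ) →ₗ[ℚ] ({i // 0 < B (x i) (x i)} → ℚ) :=
    LinearMap.pi (fun i => (B.flip (x i.1)) ∘ₗ comb)
  obtain ⟨c, hc, hc0⟩ : ∃ c, F c = 0 ∧ c ≠ 0 := by
    by_contra hno
    push Not at hno
    have hinj : Function.Injective F := by
      rw [← LinearMap.ker_eq_bot, LinearMap.ker_eq_bot']
      intro c hc; exact hno c hc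
    have h1 := LinearMap.finrank_le_finrank_of_injective hinj
    rw [Module.finrank_fintype_fun_eq_card, Module.finrank_fintype_fun_eq_card,
      Fintype.card_subtype, Fintype.card_fin] at h1
    omega
  set u := comb c with hu
  have huu : 0 < B u u := by
    have h1 : B u u = ∑ i, c i * c i * B (z i) (z i) := by
      rw [hu, hcomb, map_sum B, LinearMap.sum_apply]
      apply Finset.sum_congr rfl
      intro i _
      rw [map_sum, Finset.sum_eq_single i]
      · rw [map_smul, map_smul, LinearMap.smul_apply, smul_eq_mul, smul_eq_mul]; ring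
      · intro j _ hj
        rw [map_smul, map_smul, LinearMap.smul_apply, hz0 i j (Ne.symm hj), smul_zero, smul_zero]
      · intro h0; exact absurd (Finset.mem_univ _) h0
    rw [h1]
    obtain ⟨i, hi⟩ : ∃ i, c i ≠ 0 := by
      by_contra hall
      push Not at hall
      exact hc0 (funext hall)
    exact Finset.sum_pos' (fun j _ => mul_nonneg (mul_self_nonneg _) (hz j).le)
      ⟨i, Finset.mem_univ _, mul_pos (mul_self_pos.2 hi) (hz i)⟩
  have hux : ∀ i, 0 < B (x i) (x i) → B u (x i) = 0 := by
    intro i hi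
    exact congrFun hc ⟨i, hi⟩
  -- the projection
  set p := ∑ i, (B u (x i) / B (x i) (x i)) • x i with hp
  have hpx : ∀ i, B p (x i) = B u (x i) := by
    intro i
    rw [hp, map_sum B, LinearMap.sum_apply, Finset.sum_eq_single i]
    · rw [map_smul, LinearMap.smul_apply, smul_eq_mul, div_mul_cancel₀ _ (h.ne i)]
    · intro j _ hj
      rw [map_smul, LinearMap.smul_apply, h.orth j i hj, smul_zero]
    · intro h0; exact absurd (Finset.mem_univ _) h0
  have hmax := h.max (u - p) (fun i => by rw [map_sub, LinearMap.sub_apply, hpx, sub_self])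
  have hpp : B u p = ∑ i, B u (x i) * B u (x i) / B (x i) (x i) := by
    rw [hp, map_sum]
    apply Finset.sum_congr rfl
    intro i _
    rw [map_smul, smul_eq_mul]; ring
  have hpp2 : B p p = B u p := by
    rw [hpp]
    have h1 : B p p = B (∑ i, (B u (x i) / B (x i) (x i)) • x i) p := by rw [← hp]
    rw [h1, map_sum B, LinearMap.sum_apply]
    apply Finset.sum_congr rfl
    intro i _
    rw [map_smul, LinearMap.smul_apply, smul_eq_mul, hB (x i) p, hpx]; ring
  have hle : B u p ≤ 0 := by
    rw [hpp]
    apply Finset.sum_nonpos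
    intro i _
    by_cases hi : 0 < B (x i) (x i)
    · rw [hux i hi]; simp
    · exact div_nonpos_of_nonneg_of_nonpos (mul_self_nonneg _) (not_lt.1 hi)
  rw [map_sub, map_sub, LinearMap.sub_apply, LinearMap.sub_apply, hpp2, hB p u] at hmax
  linarith

/-- The number of positive vectors in a maximal orthogonal family is the index. -/
theorem OM.posIdx_eq (hB : ∀ x y, B x y = B y x) {ι : Type*} [Fintype ι] {x : ι → M}
    (h : OM B x) : posIdx (fun x y => B x y) =
      (univ.filter (fun i => 0 < B (x i) (x i))).card := by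
  classical
  apply le_antisymm
  · apply csSup_le
    · exact ⟨0, Fin.elim0, fun i => i.elim0, fun i => i.elim0⟩
    · rintro r ⟨z, hz, hz0⟩
      exact h.sylvester hB hz hz0
  · apply le_csSup
    · refine ⟨(univ.filter (fun i => 0 < B (x i) (x i))).card, ?_⟩
      rintro r ⟨z, hz, hz0⟩
      exact h.sylvester hB hz hz0
    · let e := Fintype.equivFinOfCardEq (α := {i // 0 < B (x i) (x i)})
        (Fintype.card_subtype (fun i => 0 < B (x i) (x i)))
      exact ⟨fun i => x (e.symm i).1, fun i => (e.symm i).2,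
        fun i j hij => h.orth _ _ (fun h0 => hij (e.symm.injective (Subtype.ext h0)))⟩

lemma OM.bddAbove (hB : ∀ x y, B x y = B y x) {ι : Type*} [Fintype ι] {x : ι → M}
    (h : OM B x) : BddAbove {r | PosFam (fun x y => B x y) r} := by
  classical
  refine ⟨(univ.filter (fun i => 0 < B (x i) (x i))).card, ?_⟩
  rintro r ⟨z, hz, hz0⟩
  exact h.sylvester hB hz hz0

/-- The signature is the sum of the signs. -/
theorem OM.signature_eq (hB : ∀ x y, B x y = B y x) {ι : Type*} [Fintype ι] {x : ι → M}
    (h : OM B x) : (posIdx (fun x y => B x y) : ℤ) - posIdx (fun x y => -B x y) =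
      ∑ i, ((SignType.sign (B (x i) (x i)) : SignType) : ℤ) := by
  classical
  have h1 := h.posIdx_eq hB
  have h2 : posIdx (fun x y => -B x y) = (univ.filter (fun i => B (x i) (x i) < 0)).card := by
    have h3 := h.neg.posIdx_eq (B := -B) (fun x y => by
      rw [LinearMap.neg_apply, LinearMap.neg_apply, LinearMap.neg_apply, LinearMap.neg_apply, hB])
    have h4 : (fun x y => (-B) x y) = fun x y => -B x y := rfl
    rw [h4] at h3
    rw [h3]
    congr 1
    ext i
    rw [Finset.mem_filter, Finset.mem_filter, LinearMap.neg_apply, LinearMap.neg_apply,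
      neg_pos]
  rw [h1, h2, Finset.card_filter, Finset.card_filter]
  push_cast
  rw [← Finset.sum_sub_distrib]
  apply Finset.sum_congr rfl
  intro i _
  rcases lt_trichotomy (B (x i) (x i)) 0 with h0 | h0 | h0
  · rw [if_neg (not_lt.2 h0.le), if_pos h0, sign_neg h0]; simp
  · exact absurd h0 (h.ne i)
  · rw [if_pos h0, if_neg (not_lt.2 h0.le), sign_pos h0]; simp

/-- Existence of a maximal orthogonal family. -/
theorem exists_OM (hB : ∀ x y, B x y = B y x) {N : ℕ}
    (hN : ∀ m (x : Fin m → M), (∀ i, B (x i) (x i) ≠ 0) → (∀ i j, i ≠ j → B (x i) (x j) = 0) →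
      m ≤ N) : ∃ m, ∃ x : Fin m → M, OM B x := by
  classical
  let P : ℕ → Prop := fun m => ∃ y : Fin m → M,
    (∀ i, B (y i) (y i) ≠ 0) ∧ ∀ i j, i ≠ j → B (y i) (y j) = 0
  have hP0 : P 0 := ⟨Fin.elim0, fun i => i.elim0, fun i => i.elim0⟩
  obtain ⟨m, hm, hm'⟩ : ∃ m, P m ∧ ¬ P (m + 1) := by
    by_contra hno
    push Not at hno
    have hall : ∀ m, P m := by
      intro m
      induction m with
      | zero => exact hP0
      | succ m ih => exact hno m ih
    obtain ⟨y, h1, h2⟩ := hall (N + 1)
    have := hN _ y h1 h2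
    omega
  obtain ⟨y, hy1, hy2⟩ := hm
  refine ⟨m, y, hy1, hy2, fun u hu => ?_⟩
  by_contra hne
  apply hm'
  refine ⟨Fin.cons u y, ?_, ?_⟩
  · intro i
    refine Fin.cases ?_ (fun i => ?_) i
    · exact hne
    · exact hy1 i
  · intro i j
    refine Fin.cases ?_ (fun i => ?_) i <;> refine Fin.cases ?_ (fun j => ?_) j
    · intro hij; exact absurd rfl hij
    · intro _; exact hu j
    · intro _
      change B (y i) u = 0
      rw [hB]; exact hu i
    · intro hij
      exact hy2 i j (fun h => hij (by rw [h]))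

end Pool.Agent.W539.Ker
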