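import Pool.Agent.W539.Sig.Main
import Pool.Agent.W539.Ker.Inertia

/-!
# Rational algebras of matrices stable under the adjoint: the trace form has nonnegative signature
-/

open Finset Matrix

universe v

namespace Pool.Agent.W539.Ker

/-- A form for which negative orthogonal families give positive orthogonal families of the same
size has nonnegative signature. -/
lemma sum_sign_nonneg {M : Type*} [AddCommGroup M] [Module ℚ M] {B : M →ₗ[ℚ] M →ₗ[ℚ] ℚ}
    (hB : ∀ x y, B x y = B y x)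
    (h : ∀ (r : ℕ) (z : Fin r → M), (∀ i, B (z i) (z i) < 0) →
      (∀ i j, i ≠ j → B (z i) (z j) = 0) →
      ∃ w : Fin r → M, (∀ i, 0 < B (w i) (w i)) ∧ ∀ i j, i ≠ j → B (w i) (w j) = 0)
    {ι : Type*} [Fintype ι] {x : ι → M} (hx : OM B x) :
    0 ≤ ∑ i, ((SignType.sign (B (x i) (x i)) : SignType) : ℤ) := by
  classical
  let e := Fintype.equivFinOfCardEq (α := {i // B (x i) (x i) < 0})
    (Fintype.card_subtype (fun i => B (x i) (x i) < 0))
  obtain ⟨w, hw, hw0⟩ := h _ (fun i => x (e.symm i).1) (fun i => (e.symm i).2)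
    (fun i j hij => hx.orth _ _ (fun h0 => hij (e.symm.injective (Subtype.ext h0))))
  have h1 := hx.sylvester hB hw hw0
  have h2 : ∑ i, ((SignType.sign (B (x i) (x i)) : SignType) : ℤ) =
      ((univ.filter (fun i => 0 < B (x i) (x i))).card : ℤ) -
        (univ.filter (fun i => B (x i) (x i) < 0)).card := by
    rw [Finset.card_filter, Finset.card_filter]
    push_cast
    rw [← Finset.sum_sub_distrib]
    apply Finset.sum_congr rfl
    intro i _
    rcases lt_trichotomy (B (x i) (x i)) 0 with h0 | h0 | h0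
    · rw [if_neg (not_lt.2 h0.le), if_pos h0, sign_neg h0]; simp
    · exact absurd h0 (hx.ne i)
    · rw [if_pos h0, if_neg (not_lt.2 h0.le), sign_pos h0]; simp
  rw [h2]
  have h3 : ((univ.filter (fun i => B (x i) (x i) < 0)).card : ℤ) ≤
      (univ.filter (fun i => 0 < B (x i) (x i))).card := by exact_mod_cast h1
  omega

variable {J : Type} [Fintype J] [DecidableEq J] {K : Type v} [Field K] [CharZero K]

/-- **The trace form of a rational algebra of matrices stable under the adjoint.** -/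
theorem exists_form (S : Subalgebra ℚ (Matrix J J K)) (G E : Matrix J J K) (hG : IsUnit G)
    (hE : E * E = 1) (hGT : Gᵀ = G * E) (hadj : ∀ A ∈ S, G⁻¹ * Aᵀ * G ∈ S)
    (hEA : ∀ A ∈ S, A * E = E * A) (htr : ∀ A ∈ S, ∃ q : ℚ, trace A = (q : K)) :
    ∃ B : S →ₗ[ℚ] S →ₗ[ℚ] ℚ,
      (∀ x y : S, ((B x y : ℚ) : K) = trace ((x : Matrix J J K) * (G⁻¹ * (y : Matrix J J K)ᵀ * G)))
      ∧ (∀ x y, B x y = B y x) ∧
      ∀ (ι : Type) [Fintype ι] (x : ι → S), OM B x →
        0 ≤ ∑ i, ((SignType.sign (B (x i) (x i)) : SignType) : ℤ) := by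
  classical
  have hdet : IsUnit G.det := (Matrix.isUnit_iff_isUnit_det G).1 hG
  have hGG : G * G⁻¹ = 1 := Matrix.mul_nonsing_inv G hdet
  have hGG' : G⁻¹ * G = 1 := Matrix.nonsing_inv_mul G hdet
  -- the trace
  obtain ⟨t, ht⟩ : ∃ t : S → ℚ, ∀ A : S, ((t A : ℚ) : K) = trace (A : Matrix J J K) := by
    choose q hq using htr
    exact ⟨fun A => q A.1 A.2, fun A => (hq A.1 A.2).symm⟩
  let T : S →ₗ[ℚ] ℚ := AddMonoidHom.toRatLinearMap
    { toFun := t
      map_zero' := by
        have h := ht 0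
        rw [Subalgebra.coe_zero, trace_zero] at h
        exact_mod_cast h
      map_add' := fun x y => by
        have h := ht (x + y)
        rw [Subalgebra.coe_add, trace_add, ← ht, ← ht] at h
        exact_mod_cast h }
  have hT : ∀ A : S, ((T A : ℚ) : K) = trace (A : Matrix J J K) := ht
  -- the involution
  let st : S →ₗ[ℚ] S := AddMonoidHom.toRatLinearMap
    { toFun := fun A => ⟨G⁻¹ * (A : Matrix J J K)ᵀ * G, hadj _ A.2⟩
      map_zero' := Subtype.ext (by simp)
      map_add' := fun x y => Subtype.ext (by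
        simp [mul_add, add_mul]) }
  have hst : ∀ A : S, ((st A : S) : Matrix J J K) = G⁻¹ * (A : Matrix J J K)ᵀ * G :=
    fun _ => rfl
  have hmul : ∀ x y, st (x * y) = st y * st x := by
    intro x y
    apply Subtype.ext
    rw [Subalgebra.coe_mul, hst, hst, hst, Subalgebra.coe_mul, transpose_mul]
    calc G⁻¹ * ((y : Matrix J J K)ᵀ * (x : Matrix J J K)ᵀ) * G =
        G⁻¹ * (y : Matrix J J K)ᵀ * 1 * ((x : Matrix J J K)ᵀ * G) := by
          rw [mul_one]; simp only [mul_assoc]
      _ = _ := by rw [← hGG]; simp only [mul_assoc]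
  have hinv : ∀ x, st (st x) = x := by
    intro x
    apply Subtype.ext
    rw [hst, hst]
    have h1 : G⁻¹ * Gᵀ = E := by rw [hGT, ← mul_assoc, hGG', one_mul]
    have h2 : (G⁻¹)ᵀ * G = E := by
      have h3 : (G⁻¹)ᵀ * Gᵀ = 1 := by rw [← transpose_mul, hGG, transpose_one]
      rw [hGT, ← mul_assoc] at h3
      calc (G⁻¹)ᵀ * G = ((G⁻¹)ᵀ * G * E) * E := by rw [mul_assoc, hE, mul_one]
        _ = E := by rw [h3, one_mul]
    rw [transpose_mul, transpose_mul, transpose_transpose]
    calc G⁻¹ * (Gᵀ * ((x : Matrix J J K) * (G⁻¹)ᵀ)) * G =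
        (G⁻¹ * Gᵀ) * (x : Matrix J J K) * ((G⁻¹)ᵀ * G) := by simp only [mul_assoc]
      _ = (x : Matrix J J K) := by rw [h1, h2, ← hEA _ x.2, mul_assoc, hE, mul_one]
  have hstT : ∀ x, T (st x) = T x := by
    intro x
    have h1 : ((T (st x) : ℚ) : K) = ((T x : ℚ) : K) := by
      rw [hT, hT, hst, trace_mul_comm, ← mul_assoc, hGG, one_mul, trace_transpose]
    exact_mod_cast h1
  let ρ : S →+* Module.End K (J → K) :=
    ((Matrix.toLinAlgEquiv' (R := K) (n := J)).toRingEquiv.toRingHom).comp S.val.toRingHom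
  have hTρ : ∀ s, ((T s : ℚ) : K) = LinearMap.trace K (J → K) (ρ s) := by
    intro s
    rw [hT]
    exact (Matrix.trace_toLin'_eq (s : Matrix J J K)).symm
  let B : S →ₗ[ℚ] S →ₗ[ℚ] ℚ := ((LinearMap.mul ℚ S).compr₂ T).compl₂ st
  have hBT : ∀ x y, B x y = T (x * st y) := fun _ _ => rfl
  have hsymm : ∀ x y, B x y = B y x := by
    intro x y
    rw [hBT, hBT, ← hstT, hmul, hinv]
  refine ⟨B, ?_, hsymm, ?_⟩
  · intro x y
    rw [hBT, hT, Subalgebra.coe_mul, hst]
  · intro ι _ x hx
    apply sum_sign_nonneg hsymm _ hx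
    intro r z hz hz0
    exact Sig.signature hTρ hmul hinv hstT z hz hz0

end Pool.Agent.W539.Ker
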