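import Pool.Agent.W539.Ker.Lef

/-!
# Orthogonal families of algebraic classes of a given codimension
-/

open CategoryTheory AlgebraicGeometry Finset

universe u v

namespace Pool.Agent.W539.Ker

open Pool.Agent.H914 Pool.Agent.H914.VarClass Pool.Agent.H914.VarClass.Obj
  Pool.Agent.H914.WeilCohomology Pool.Agent.H281R3.HT Pool.Agent.W552

variable {k : Type u} [Field k] {𝒱 : VarClass k} {ops : CycleOps 𝒱}
  {W : WeilCohomology.{u, v} ops} {X Y : 𝒱.Obj} {D : X.Cycles} {f : Module.End W.K (W.H X)}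

/-- The sum of the `σ n` over the codimensions `n` of primitive classes contributing in weight
`m`, on a variety of dimension `d`. -/
def wsum (d : ℕ) (σ : ℕ → ℤ) (m : ℤ) : ℤ :=
  ∑ n ∈ range (d / 2 + 1), if |m| ≤ (d : ℤ) - 2 * n ∧ (2 : ℤ) ∣ d + m then σ n else 0

lemma wsum_neg (d : ℕ) (σ : ℕ → ℤ) (m : ℤ) : wsum d σ (-m) = wsum d σ m := by
  apply Finset.sum_congr rfl
  intro n _
  have : (2 : ℤ) ∣ d + -m ↔ (2 : ℤ) ∣ d + m := by omega
  simp only [abs_neg, this]

/-- An algebraic class of weight `m` is homogeneous. -/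
lemma AS_wt {u : W.H X} (hu : AS W X u) {m : ℤ}
    (hm : wt (W.isInternal X) X.dim u = (m : W.K) • u) :
    u = 0 ∨ ∃ j : ℕ, (2 * j : ℤ) = X.dim + m ∧ u ∈ algClasses W X j := by
  have h1 := mem_gr_of_wt (W.isInternal X) W_hbd hm
  by_cases h : ∃ i : ℕ, (m : W.K) = (i : W.K) - X.dim
  · obtain ⟨i, hi⟩ := h
    have h2 := h1.1 i hi
    have h3 : (i : ℤ) = X.dim + m := by
      have : ((i : ℤ) : W.K) = ((X.dim + m : ℤ) : W.K) := by
        push_cast
        rw [hi]; ring
      exact_mod_cast this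
    rcases Nat.even_or_odd i with he | ho
    · obtain ⟨j, hj⟩ := he
      right
      refine ⟨j, by rw [← h3, hj]; push_cast; ring, hu.alg ?_⟩
      rw [show 2 * j = i by omega]
      exact h2
    · left
      rw [Fr.AS_sum hu]
      apply Finset.sum_eq_zero
      intro j _
      apply proj_ne _ h2
      obtain ⟨r, hr⟩ := ho
      omega
  · push Not at h
    exact Or.inl (h1.2 h)

section Form

variable (F : Fr W X D f)

include F

lemma bf_same {n : ℕ} (hn : 2 * n ≤ X.dim) {z z' : X.Cycles} (hz : Primitive W X D n z)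
    (hz' : Primitive W X D n z') {j : ℕ} (hj : j ≤ X.dim - 2 * n) :
    bf W X D f (((LinearMap.mulLeft W.K (W.cl X D)) ^ j) (W.cl X z))
      (((LinearMap.mulLeft W.K (W.cl X D)) ^ j) (W.cl X z')) =
      ((j.factorial * ((X.dim - 2 * n - j).factorial : ℚ)⁻¹ * pairing ops X D n z z' : ℚ) :
        W.K) := by
  rw [bf_L_pow F hn (W.cl_mem hz'.1) (by rw [← cl_divPow]; exact hz'.2) hj, L_pow_self F.hD,
    ← Module.End.mul_apply, ← pow_add, show j + (X.dim - 2 * n - j) = X.dim - 2 * n by omega,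
    ← pairing_cast F.hD hn hz.1 hz'.1, ← Rat.cast_mul]

lemma bf_cross {n n' : ℕ} (hn : 2 * n ≤ X.dim) (hn' : 2 * n' ≤ X.dim) (hnn : n ≠ n')
    {z z' : X.Cycles} (hz : Primitive W X D n z) (hz' : Primitive W X D n' z') {j j' : ℕ}
    (hjj : n + j = n' + j') (hj' : j' ≤ X.dim - 2 * n') :
    bf W X D f (((LinearMap.mulLeft W.K (W.cl X D)) ^ j) (W.cl X z))
      (((LinearMap.mulLeft W.K (W.cl X D)) ^ j') (W.cl X z')) = 0 := by
  have h1 : ((LinearMap.mulLeft W.K (W.cl X D)) ^ (X.dim - 2 * n + 1)) (W.cl X z) = 0 := by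
    rw [← cl_divPow]; exact hz.2
  have h2 : ((LinearMap.mulLeft W.K (W.cl X D)) ^ (X.dim - 2 * n' + 1)) (W.cl X z') = 0 := by
    rw [← cl_divPow]; exact hz'.2
  rw [bf_L_pow F hn' (W.cl_mem hz'.1) h2 hj']
  have h3 : W.tr X (((LinearMap.mulLeft W.K (W.cl X D)) ^ j) (W.cl X z) *
      ((LinearMap.mulLeft W.K (W.cl X D)) ^ (X.dim - 2 * n' - j')) (W.cl X z')) = 0 := by
    rcases lt_or_gt_of_ne hnn with h | h
    · rw [L_pow_self F.hD, ← Module.End.mul_apply, ← pow_add,
        L_pow_gt (n := X.dim) (i := 2 * n') h2 (by omega), mul_zero, map_zero]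
    · rw [← L_pow_self F.hD, ← Module.End.mul_apply, ← pow_add,
        L_pow_gt (n := X.dim) (i := 2 * n) h1 (by omega), zero_mul, map_zero]
  rw [h3, mul_zero, mul_zero]

/-- **The signature of the form on the algebraic classes of weight `m`.** -/
theorem exists_fam (m : ℤ) : ∃ (ι : Type) (_ : Fintype ι) (y : ι → W.H X) (s : ι → ℚ),
    (∀ i, AS W X (y i)) ∧ (∀ i, wt (W.isInternal X) X.dim (y i) = (m : W.K) • y i) ∧
    (∀ i, s i ≠ 0) ∧ (∀ i, bf W X D f (y i) (y i) = (s i : W.K)) ∧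
    (∀ i j, i ≠ j → bf W X D f (y i) (y j) = 0) ∧
    (∀ u, AS W X u → wt (W.isInternal X) X.dim u = (m : W.K) • u →
      (∀ i, bf W X D f u (y i) = 0) → bf W X D f u u = 0) ∧
    ∑ i, ((SignType.sign (s i) : SignType) : ℤ) = wsum X.dim (sig W X D) m := by
  classical
  have hle : ∀ n : Fin (X.dim / 2 + 1), 2 * (n : ℕ) ≤ X.dim := fun n => by omega
  choose M x hx using fun n : Fin (X.dim / 2 + 1) => exists_prim W F.hD (hle n)
  set L := LinearMap.mulLeft W.K (W.cl X D) with hL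
  let C : Fin (X.dim / 2 + 1) → Prop := fun n => |m| ≤ (X.dim : ℤ) - 2 * (n : ℕ) ∧
    (2 : ℤ) ∣ X.dim + m
  let j : Fin (X.dim / 2 + 1) → ℕ := fun n => ((m + X.dim - 2 * (n : ℕ)) / 2).toNat
  have hj : ∀ n, C n → (2 * (j n : ℤ) = m + X.dim - 2 * (n : ℕ)) ∧ j n ≤ X.dim - 2 * (n : ℕ) := by
    rintro n ⟨h1, h2⟩
    have h3 := abs_le.1 h1
    have h4 := hle n
    have h5 : (2 * (j n : ℤ) = m + X.dim - 2 * (n : ℕ)) := by
      change 2 * (((m + X.dim - 2 * (n : ℕ)) / 2).toNat : ℤ) = _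
      omega
    exact ⟨h5, by omega⟩
  have hpm : ∀ (n : Fin (X.dim / 2 + 1)) (t : Fin (M n)),
      Primitive W X D n (x n t : X.Cycles) := fun n t => (x n t).2
  have hpne : ∀ (n : Fin (X.dim / 2 + 1)) (t : Fin (M n)),
      pairing ops X D n (x n t : X.Cycles) (x n t : X.Cycles) ≠ 0 := by
    intro n t
    have := (hx n).ne t
    rwa [BP_apply] at this
  have hgr : ∀ n : Fin (X.dim / 2 + 1), C n → ∀ z : X.Cycles, Primitive W X D n z → (L ^ (j n)) (W.cl X z) ∈
      algClasses W X (n + j n) := fun n _ z hz =>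
    (ap_alg F).map_L_pow (j n) ⟨z, hz.1, rfl⟩
  have hc : ∀ n, (0 : ℚ) < (j n).factorial * ((X.dim - 2 * (n : ℕ) - j n).factorial : ℚ)⁻¹ := by
    intro n; positivity
  refine ⟨Σ n : {n : Fin (X.dim / 2 + 1) // C n}, Fin (M n.1), inferInstance,
    fun p => (L ^ (j p.1.1)) (W.cl X (x p.1.1 p.2 : X.Cycles)),
    fun p => (j p.1.1).factorial * ((X.dim - 2 * (p.1.1 : ℕ) - j p.1.1).factorial : ℚ)⁻¹ *
      pairing ops X D p.1.1 (x p.1.1 p.2 : X.Cycles) (x p.1.1 p.2 : X.Cycles),
    ?_, ?_, ?_, ?_, ?_, ?_, ?_⟩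
  · rintro ⟨⟨n, hn⟩, t⟩
    exact AS.of (hgr n hn _ (hpm n t))
  · rintro ⟨⟨n, hn⟩, t⟩
    have h1 := alg_gr (hgr n hn _ (hpm n t))
    rw [Fr.wt_gr h1]
    congr 1
    have h2 := (hj n hn).1
    have h3 : ((2 * (j n : ℤ) : ℤ) : W.K) = ((m + X.dim - 2 * (n : ℕ) : ℤ) : W.K) := by rw [h2]
    push_cast at h3 ⊢
    linear_combination h3
  · rintro ⟨⟨n, hn⟩, t⟩
    exact mul_ne_zero (hc n).ne' (hpne n t)
  · rintro ⟨⟨n, hn⟩, t⟩
    exact bf_same F (hle n) (hpm n t) (hpm n t) (hj n hn).2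
  · rintro ⟨⟨n, hn⟩, t⟩ ⟨⟨n', hn'⟩, t'⟩ hne
    by_cases hnn : n = n'
    · subst hnn
      have htt : t ≠ t' := by rintro rfl; exact hne rfl
      have h1 := bf_same F (hle n) (hpm n t) (hpm n t') (hj n hn).2
      have h2 : pairing ops X D n (x n t : X.Cycles) (x n t' : X.Cycles) = 0 := by
        have := (hx n).orth t t' htt
        rwa [BP_apply] at this
      rw [h2, mul_zero, Rat.cast_zero] at h1
      exact h1
    · refine bf_cross F (hle n) (hle n') (fun h => hnn (Fin.ext h)) (hpm n t) (hpm n' t') ?_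
        (hj n' hn').2
      have h1 := (hj n hn).1
      have h2 := (hj n' hn').1
      change (n : ℕ) + j n = (n' : ℕ) + j n'
      omega
  · intro w hw hwm hwy
    rcases AS_wt hw hwm with rfl | ⟨l, hl, hwl⟩
    · simp
    obtain ⟨v, hv, hs⟩ := (ap_alg F).decomp (mulLeft_isHom F.hD) W_hbd hwl
    rw [← hL] at hv hs
    -- the primitive components
    have key : ∀ b ∈ range (l + 1), (L ^ b) (v b) = 0 ∨ ∃ n : Fin (X.dim / 2 + 1),
        (n : ℕ) = l - b ∧ C n ∧ j n = b ∧ ∃ z, Primitive W X D n z ∧ v b = W.cl X z := by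
      intro b hb
      rw [Finset.mem_range] at hb
      obtain ⟨h1, h2, h3⟩ := hv b (by omega)
      by_cases h0 : (L ^ b) (v b) = 0
      · exact Or.inl h0
      right
      have hv0 : v b ≠ 0 := by rintro h; apply h0; rw [h, map_zero]
      have h4 := h2 hv0
      have h5 : b ≤ X.dim - 2 * (l - b) := by
        by_contra h6
        exact h0 (L_pow_gt (n := X.dim) (i := 2 * (l - b)) h3 (by omega))
      obtain ⟨z, hz, hz'⟩ := h1
      have hC : C ⟨l - b, by omega⟩ := by
        refine ⟨abs_le.2 ⟨?_, ?_⟩, ?_⟩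
        · change -((X.dim : ℤ) - 2 * ((l - b : ℕ) : ℤ)) ≤ m
          omega
        · change m ≤ (X.dim : ℤ) - 2 * ((l - b : ℕ) : ℤ)
          omega
        · omega
      refine ⟨⟨l - b, by omega⟩, rfl, hC, ?_, z, ⟨hz, ?_⟩, hz'.symm⟩
      · have h6 := (hj _ hC).1
        change 2 * (j ⟨l - b, _⟩ : ℤ) = m + X.dim - 2 * ((l - b : ℕ) : ℤ) at h6
        omega
      · rw [cl_divPow, hz']; exact h3
    -- orthogonality of the components
    have hcross : ∀ b ∈ range (l + 1), ∀ b' ∈ range (l + 1), b ≠ b' →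
        bf W X D f ((L ^ b) (v b)) ((L ^ b') (v b')) = 0 := by
      intro b hb b' hb' hne
      rcases key b hb with h0 | ⟨n, hn, hC, hjn, z, hz, hvz⟩
      · rw [h0, map_zero, LinearMap.zero_apply]
      rcases key b' hb' with h0 | ⟨n', hn', hC', hjn', z', hz', hvz'⟩
      · rw [h0, map_zero]
      rw [hvz, hvz']
      rw [Finset.mem_range] at hb hb'
      refine bf_cross F (hle n) (hle n') (by omega) hz hz' (by omega) ?_
      rw [← hjn']
      exact (hj n' hC').2
    have hdiag : ∀ b ∈ range (l + 1), bf W X D f ((L ^ b) (v b)) ((L ^ b) (v b)) = 0 := by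
      intro b hb
      rcases key b hb with h0 | ⟨n, hn, hC, hjn, z, hz, hvz⟩
      · rw [h0, map_zero]
      have hbj : b ≤ X.dim - 2 * (n : ℕ) := by rw [← hjn]; exact (hj n hC).2
      have h1 : ∀ t, BP W F.hD n (hle n) ⟨z, hz⟩ (x n t) = 0 := by
        intro t
        have h2 := hwy ⟨⟨n, hC⟩, t⟩
        change bf W X D f w ((L ^ (j n)) (W.cl X (x n t : X.Cycles))) = 0 at h2
        have h3 : bf W X D f w ((L ^ (j n)) (W.cl X (x n t : X.Cycles))) =
            bf W X D f ((L ^ b) (v b)) ((L ^ (j n)) (W.cl X (x n t : X.Cycles))) := by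
          rw [hs, map_sum (bf W X D f), LinearMap.sum_apply, Finset.sum_eq_single b]
          · intro b' hb' hne
            rcases key b' hb' with h0 | ⟨n', hn', hC', hjn', z', hz', hvz'⟩
            · rw [h0, map_zero, LinearMap.zero_apply]
            rw [hvz']
            rw [Finset.mem_range] at hb hb'
            exact bf_cross F (hle n') (hle n) (by omega) hz' (hpm n t) (by omega) (hj n hC).2
          · intro h0; exact absurd hb h0
        rw [h2, hjn, hvz, bf_same F (hle n) hz (hpm n t) hbj] at h3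
        have h4 : (0 : ℚ) = b.factorial * ((X.dim - 2 * (n : ℕ) - b).factorial : ℚ)⁻¹ *
            pairing ops X D n z (x n t : X.Cycles) := by exact_mod_cast h3
        rw [← hjn] at h4
        rcases mul_eq_zero.1 h4.symm with h5 | h5
        · exact absurd h5 (hc n).ne'
        · rw [BP_apply]; exact h5
      have h2 : pairing ops X D n z z = 0 := by
        have := (hx n).max ⟨z, hz⟩ h1
        rwa [BP_apply] at this
      rw [hvz, bf_same F (hle n) hz hz hbj, h2, mul_zero, Rat.cast_zero]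
    have h1 : bf W X D f w w = ∑ b ∈ range (l + 1), ∑ b' ∈ range (l + 1),
        bf W X D f ((L ^ b) (v b)) ((L ^ b') (v b')) := by
      conv_lhs => rw [hs]
      rw [map_sum (bf W X D f), LinearMap.sum_apply]
      apply Finset.sum_congr rfl
      intro b _
      rw [map_sum]
    rw [h1]
    apply Finset.sum_eq_zero
    intro b hb
    apply Finset.sum_eq_zero
    intro b' hb'
    by_cases hbb : b = b'
    · subst hbb; exact hdiag b hb
    · exact hcross b hb b' hb' hbb
  · rw [Fintype.sum_sigma]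
    have h1 : ∀ n : {n : Fin (X.dim / 2 + 1) // C n}, ∑ t : Fin (M n.1),
        ((SignType.sign ((j n.1).factorial * ((X.dim - 2 * (n.1 : ℕ) - j n.1).factorial : ℚ)⁻¹ *
          pairing ops X D n.1 (x n.1 t : X.Cycles) (x n.1 t : X.Cycles)) : SignType) : ℤ) =
        sig W X D n.1 := by
      intro n
      rw [sig_eq F.hD (hle n.1) (hx n.1)]
      apply Finset.sum_congr rfl
      intro t _
      rw [sign_mul, sign_pos (hc n.1), one_mul, BP_apply]
    rw [Finset.sum_congr rfl (fun n _ => h1 n), wsum, Finset.sum_range, ← Finset.sum_filter]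
    exact (Finset.sum_subtype (univ.filter C) (by simp) (fun n => sig W X D n)).symm

end Form

end Pool.Agent.W539.Ker
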