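import Mathlib
import Pool.Agent.W539.Ker.Fam

/-!
# From integral weights to a positive semidefinite kernel
-/

open Finset

namespace Pool.Agent.W539.Ker

section Weights

variable {Λ : Type} {σ : Λ → Λ → ℤ → ℤ}

/-- Signs give integral weights. -/
lemma int_weights (H : ∀ (I : Type) [Fintype I] [DecidableEq I] (α : I → Λ) (dg ε : I → ℤ),
      (∀ a, ε a * ε a = 1) → 0 ≤ ∑ a, ∑ c, ε a * ε c * σ (α a) (α c) (dg c - dg a))
    {J : Type} [Fintype J] (α : J → Λ) (dg w : J → ℤ) :
    0 ≤ ∑ i, ∑ j, w i * w j * σ (α i) (α j) (dg j - dg i) := by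
  classical
  obtain ⟨sg, hsg, e1⟩ : ∃ sg : J → ℤ, (∀ i, sg i * sg i = 1) ∧
      ∀ i, ((w i).natAbs : ℤ) * sg i = w i := by
    refine ⟨fun i => if 0 ≤ w i then 1 else -1, fun i => ?_, fun i => ?_⟩
    · beta_reduce
      split_ifs <;> norm_num
    · beta_reduce
      split_ifs with h
      · rw [mul_one, Int.natAbs_of_nonneg h]
      · rw [Int.ofNat_natAbs_of_nonpos (by omega)]; ring
  have h1 := H (Σ i : J, Fin (w i).natAbs) (fun p => α p.1) (fun p => dg p.1)
    (fun p => sg p.1) (fun p => hsg p.1)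
  rw [Fintype.sum_sigma] at h1
  refine h1.trans (le_of_eq ?_)
  apply Finset.sum_congr rfl
  intro i _
  dsimp only
  rw [Finset.sum_const, Finset.card_univ, Fintype.card_fin, Fintype.sum_sigma, Finset.smul_sum]
  apply Finset.sum_congr rfl
  intro j _
  dsimp only
  rw [Finset.sum_const, Finset.card_univ, Fintype.card_fin, nsmul_eq_mul, nsmul_eq_mul]
  calc ((w i).natAbs : ℤ) * (((w j).natAbs : ℤ) * (sg i * sg j * σ (α i) (α j) (dg j - dg i))) =
      (((w i).natAbs : ℤ) * sg i) *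
        (((w j).natAbs : ℤ) * sg j) * σ (α i) (α j) (dg j - dg i) := by
        ring
    _ = _ := by rw [e1, e1]

/-- Real weights. -/
lemma real_weights (H : ∀ (I : Type) [Fintype I] [DecidableEq I] (α : I → Λ) (dg ε : I → ℤ),
      (∀ a, ε a * ε a = 1) → 0 ≤ ∑ a, ∑ c, ε a * ε c * σ (α a) (α c) (dg c - dg a))
    {J : Type} [Fintype J] (α : J → Λ) (dg : J → ℤ) (w : J → ℝ) :
    0 ≤ ∑ i, ∑ j, w i * w j * (σ (α i) (α j) (dg j - dg i) : ℝ) := by
  classical
  have hcont : Continuous (fun w : J → ℝ =>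
      ∑ i, ∑ j, w i * w j * (σ (α i) (α j) (dg j - dg i) : ℝ)) := by
    fun_prop
  have hcl : IsClosed {w : J → ℝ | 0 ≤ ∑ i, ∑ j, w i * w j *
      (σ (α i) (α j) (dg j - dg i) : ℝ)} := isClosed_le continuous_const hcont
  have hd : DenseRange (Pi.map (fun _ : J => ((↑) : ℚ → ℝ))) :=
    DenseRange.piMap (fun _ => Rat.denseRange_cast)
  refine hd.induction_on (p := fun w : J → ℝ => 0 ≤ ∑ i, ∑ j, w i * w j *
      (σ (α i) (α j) (dg j - dg i) : ℝ)) w hcl ?_
  intro q
  -- a common denominator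
  set N : ℕ := ∏ j, (q j).den with hN
  have hN0 : N ≠ 0 := Finset.prod_ne_zero_iff.2 (fun j _ => (q j).den_nz)
  have hm : ∀ j, ∃ m : ℤ, (m : ℚ) = N * q j := by
    intro j
    refine ⟨(∏ i ∈ univ.erase j, ((q i).den : ℤ)) * (q j).num, ?_⟩
    have h1 : (N : ℚ) = (∏ i ∈ univ.erase j, ((q i).den : ℚ)) * (q j).den := by
      rw [hN]
      push_cast
      exact (Finset.prod_erase_mul univ _ (Finset.mem_univ j)).symm
    push_cast
    rw [h1, mul_assoc, Rat.den_mul_eq_num]
  choose m hm using hm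
  have h1 := int_weights H α dg m
  have h2 : (0 : ℝ) ≤ ((∑ i, ∑ j, m i * m j * σ (α i) (α j) (dg j - dg i) : ℤ) : ℝ) := by
    exact_mod_cast h1
  have hm' : ∀ j, (m j : ℝ) = N * (q j : ℝ) := by
    intro j
    have := congrArg (Rat.cast (K := ℝ)) (hm j)
    push_cast at this
    exact this
  have h3 : ((∑ i, ∑ j, m i * m j * σ (α i) (α j) (dg j - dg i) : ℤ) : ℝ) =
      (N : ℝ) ^ 2 * ∑ i, ∑ j, (Pi.map (fun _ : J => ((↑) : ℚ → ℝ)) q) i *
        (Pi.map (fun _ : J => ((↑) : ℚ → ℝ)) q) j * (σ (α i) (α j) (dg j - dg i) : ℝ) := by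
    push_cast
    rw [Finset.mul_sum]
    apply Finset.sum_congr rfl
    intro i _
    rw [Finset.mul_sum]
    apply Finset.sum_congr rfl
    intro j _
    rw [hm', hm', Pi.map_apply, Pi.map_apply]
    ring
  rw [h3] at h2
  have hN1 : (0 : ℝ) < (N : ℝ) ^ 2 := by positivity
  exact nonneg_of_mul_nonneg_right h2 hN1

end Weights

/-- The sum of the cosines of the weights of the representation of dimension `r + 1`. -/
lemma cos_sum (θ : ℝ) (M : ℕ) : ∀ r : ℕ, r ≤ M →
    ∑ m ∈ Icc (-(M : ℤ)) M, (if |m| ≤ (r : ℤ) ∧ (2 : ℤ) ∣ r + m then Real.cos (m * θ) else 0) =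
      (Polynomial.Chebyshev.U ℝ r).eval (Real.cos θ) := by
  intro r
  induction r using Nat.twoStepInduction with
  | zero =>
    intro _
    rw [Finset.sum_eq_single 0]
    · simp
    · intro m _ hm
      rw [if_neg]
      rintro ⟨h1, -⟩
      exact hm (abs_nonpos_iff.1 (by simpa using h1))
    · intro h0
      exact absurd (Finset.mem_Icc.2 ⟨by omega, by omega⟩) h0
  | one =>
    intro hM
    have h1 : ∀ m : ℤ, (|m| ≤ ((1 : ℕ) : ℤ) ∧ (2 : ℤ) ∣ ((1 : ℕ) : ℤ) + m) ↔
        (m = -1 ∨ m = 1) := by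
      intro m
      rw [abs_le]
      omega
    simp only [h1]
    rw [← Finset.sum_filter]
    have h2 : (Icc (-(M : ℤ)) M).filter (fun m => m = -1 ∨ m = 1) = {-1, 1} := by
      ext m
      rw [Finset.mem_filter, Finset.mem_Icc, Finset.mem_insert, Finset.mem_singleton]
      omega
    rw [h2, Finset.sum_pair (by norm_num)]
    simp
    ring
  | more r ih _ =>
    intro hM
    have h1 := ih (by omega)
    have h2 : (Polynomial.Chebyshev.U ℝ ((r + 2 : ℕ) : ℤ)).eval (Real.cos θ) =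
        2 * Real.cos ((r + 2) * θ) + (Polynomial.Chebyshev.U ℝ (r : ℤ)).eval (Real.cos θ) := by
      have h3 := Polynomial.Chebyshev.U_eq_two_mul_T_add_U ℝ (r : ℤ)
      push_cast
      rw [h3, Polynomial.eval_add, Polynomial.eval_mul, Polynomial.Chebyshev.T_real_cos]
      norm_num
    rw [h2, ← h1]
    have h3 : ∀ m : ℤ, (if |m| ≤ ((r + 2 : ℕ) : ℤ) ∧ (2 : ℤ) ∣ ((r + 2 : ℕ) : ℤ) + m then
        Real.cos (m * θ) else 0) =
        (if m = -((r : ℤ) + 2) ∨ m = (r : ℤ) + 2 then Real.cos (m * θ) else 0) +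
          (if |m| ≤ (r : ℤ) ∧ (2 : ℤ) ∣ r + m then Real.cos (m * θ) else 0) := by
      intro m
      by_cases ha : m = -((r : ℤ) + 2) ∨ m = (r : ℤ) + 2
      · have hb : ¬ (|m| ≤ (r : ℤ) ∧ (2 : ℤ) ∣ r + m) := by
          rintro ⟨hb, -⟩
          rw [abs_le] at hb
          omega
        have hc : |m| ≤ ((r + 2 : ℕ) : ℤ) ∧ (2 : ℤ) ∣ ((r + 2 : ℕ) : ℤ) + m := by
          rw [abs_le]
          omega
        rw [if_pos hc, if_pos ha, if_neg hb, add_zero]
      · rw [if_neg ha, zero_add]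
        have hc : (|m| ≤ ((r + 2 : ℕ) : ℤ) ∧ (2 : ℤ) ∣ ((r + 2 : ℕ) : ℤ) + m) ↔
            (|m| ≤ (r : ℤ) ∧ (2 : ℤ) ∣ r + m) := by
          rw [abs_le, abs_le]
          omega
        simp only [hc]
    rw [Finset.sum_congr rfl (fun m _ => h3 m), Finset.sum_add_distrib]
    congr 1
    rw [← Finset.sum_filter]
    have h4 : (Icc (-(M : ℤ)) M).filter (fun m => m = -((r : ℤ) + 2) ∨ m = (r : ℤ) + 2) =
        {-((r : ℤ) + 2), (r : ℤ) + 2} := by
      ext m
      rw [Finset.mem_filter, Finset.mem_Icc, Finset.mem_insert, Finset.mem_singleton]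
      omega
    rw [h4, Finset.sum_pair (by omega)]
    push_cast
    rw [neg_mul, Real.cos_neg]
    ring

/-- The averaging argument. -/
lemma average {g : ℤ → ℝ} {M : ℕ} (hg : ∀ m : ℤ, (M : ℤ) < |m| → g m = 0)
    (h : ∀ N : ℕ, 0 ≤ ∑ k ∈ range N, ∑ l ∈ range N, g ((l : ℤ) - k)) :
    0 ≤ ∑ m ∈ Icc (-(M : ℤ)) M, g m := by
  classical
  set G := ∑ m ∈ Icc (-(M : ℤ)) M, g m with hG
  set C := ∑ m ∈ Icc (-(M : ℤ)) M, |g m| with hC
  have hGC : -G ≤ C := (neg_le_abs G).trans (Finset.abs_sum_le_sum_abs _ _)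
  have hC0 : 0 ≤ C := Finset.sum_nonneg (fun m _ => abs_nonneg _)
  have hrow : ∀ (N k : ℕ), ∑ l ∈ range N, g ((l : ℤ) - k) ≤
      G + (if k < M ∨ N ≤ k + M then 2 * C else 0) := by
    intro N k
    have h1 : ∑ l ∈ range N, g ((l : ℤ) - k) =
        ∑ m ∈ Ico (-(k : ℤ)) (N - k) ∩ Icc (-(M : ℤ)) M, g m := by
      have h2 : (range N).image (fun l : ℕ => (l : ℤ) - k) = Ico (-(k : ℤ)) (N - k) := by
        ext m
        rw [Finset.mem_image, Finset.mem_Ico]
        constructor
        · rintro ⟨l, hl, rfl⟩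
          rw [Finset.mem_range] at hl
          omega
        · rintro ⟨h3, h4⟩
          exact ⟨(m + k).toNat, Finset.mem_range.2 (by omega), by omega⟩
      have h3 : ∑ l ∈ range N, g ((l : ℤ) - k) = ∑ m ∈ Ico (-(k : ℤ)) (N - k), g m := by
        rw [← h2, Finset.sum_image]
        intro a _ b _ hab
        have : (a : ℤ) - k = b - k := hab
        omega
      rw [h3]
      symm
      apply Finset.sum_subset Finset.inter_subset_left
      intro m hm hn
      apply hg
      by_contra h4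
      apply hn
      rw [Finset.mem_inter]
      refine ⟨hm, ?_⟩
      rw [Finset.mem_Icc, ← abs_le]
      exact not_lt.1 h4
    rw [h1]
    split_ifs with hbad
    · calc ∑ m ∈ Ico (-(k : ℤ)) (N - k) ∩ Icc (-(M : ℤ)) M, g m
          ≤ ∑ m ∈ Ico (-(k : ℤ)) (N - k) ∩ Icc (-(M : ℤ)) M, |g m| :=
            Finset.sum_le_sum (fun m _ => le_abs_self _)
        _ ≤ C := Finset.sum_le_sum_of_subset_of_nonneg Finset.inter_subset_right
            (fun m _ _ => abs_nonneg _)
        _ ≤ G + 2 * C := by linarith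
    · push Not at hbad
      rw [Finset.inter_eq_right.2, add_zero]
      intro m hm
      rw [Finset.mem_Icc] at hm
      rw [Finset.mem_Ico]
      omega
  by_contra hneg
  push Not at hneg
  have hbound : ∀ N : ℕ, 0 ≤ N * G + 4 * M * C := by
    intro N
    have h1 := (h N).trans (Finset.sum_le_sum (fun k _ => hrow N k))
    rw [Finset.sum_add_distrib, Finset.sum_const, Finset.card_range, nsmul_eq_mul,
      ← Finset.sum_filter, Finset.sum_const, nsmul_eq_mul] at h1
    have h2 : ((range N).filter (fun k => k < M ∨ N ≤ k + M)).card ≤ 2 * M := by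
      have h3 : (range N).filter (fun k => k < M ∨ N ≤ k + M) ⊆ range M ∪ Ico (N - M) N := by
        intro k hk
        rw [Finset.mem_filter, Finset.mem_range] at hk
        rw [Finset.mem_union, Finset.mem_range, Finset.mem_Ico]
        omega
      have h4 := (Finset.card_le_card h3).trans (Finset.card_union_le _ _)
      rw [Finset.card_range, Nat.card_Ico] at h4
      omega
    have h3 : (((range N).filter (fun k => k < M ∨ N ≤ k + M)).card : ℝ) ≤ 2 * M := by
      exact_mod_cast h2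
    have h4 := mul_le_mul_of_nonneg_right h3 (by linarith : (0 : ℝ) ≤ 2 * C)
    linarith
  obtain ⟨N, hN⟩ := exists_nat_gt ((4 * M * C) / (-G))
  have h1 := hbound N
  rw [div_lt_iff₀ (by linarith)] at hN
  linarith

/-- **The kernel.** -/
theorem kernel_nonneg {Λ : Type} [Fintype Λ] {d : Λ → Λ → ℕ} {s : Λ → Λ → ℕ → ℤ}
    (H : ∀ (I : Type) [Fintype I] [DecidableEq I] (α : I → Λ) (dg ε : I → ℤ),
      (∀ a, ε a * ε a = 1) → 0 ≤ ∑ a, ∑ c, ε a * ε c *
        wsum (d (α a) (α c)) (s (α a) (α c)) (dg c - dg a))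
    (c : Λ → ℝ) (θ : ℝ) : 0 ≤ ∑ a, ∑ b, c a * c b * ∑ n ∈ range (d a b / 2 + 1),
      (s a b n : ℝ) * (Polynomial.Chebyshev.U ℝ ((d a b : ℤ) - 2 * n)).eval (Real.cos θ) := by
  classical
  set M : ℕ := ∑ a, ∑ b, d a b with hM
  have hdM : ∀ a b, d a b ≤ M := fun a b =>
    (Finset.single_le_sum (f := fun b => d a b) (fun _ _ => Nat.zero_le _)
      (Finset.mem_univ b)).trans
    (Finset.single_le_sum (f := fun a => ∑ b, d a b) (fun _ _ => Nat.zero_le _)
      (Finset.mem_univ a))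
  let g : ℤ → ℝ := fun m => ∑ a, ∑ b, c a * c b *
    ((wsum (d a b) (s a b) m : ℝ) * Real.cos (m * θ))
  have hg : ∀ m : ℤ, (M : ℤ) < |m| → g m = 0 := by
    intro m hm
    apply Finset.sum_eq_zero
    intro a _
    apply Finset.sum_eq_zero
    intro b _
    have h1 : wsum (d a b) (s a b) m = 0 := by
      apply Finset.sum_eq_zero
      intro n _
      rw [if_neg]
      rintro ⟨h2, -⟩
      have := hdM a b
      omega
    rw [h1]
    simp
  have h1 := average hg (by
    intro N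
    have h2 := real_weights (σ := fun a b m => wsum (d a b) (s a b) m) H (J := Λ × Fin N)
      (fun p => p.1) (fun p => (p.2 : ℤ)) (fun p => c p.1 * Real.cos (p.2 * θ))
    have h3 := real_weights (σ := fun a b m => wsum (d a b) (s a b) m) H (J := Λ × Fin N)
      (fun p => p.1) (fun p => (p.2 : ℤ)) (fun p => c p.1 * Real.sin (p.2 * θ))
    refine (add_nonneg h2 h3).trans (le_of_eq ?_)
    rw [← Finset.sum_add_distrib, Fintype.sum_prod_type, Finset.sum_comm, Finset.sum_range]
    apply Finset.sum_congr rfl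
    intro k _
    rw [Finset.sum_range, Finset.sum_comm]
    apply Finset.sum_congr rfl
    intro a _
    rw [Fintype.sum_prod_type, Fintype.sum_prod_type, ← Finset.sum_add_distrib]
    conv_rhs => rw [Finset.sum_comm]
    apply Finset.sum_congr rfl
    intro b _
    rw [← Finset.sum_add_distrib]
    apply Finset.sum_congr rfl
    intro l _
    dsimp only
    push_cast
    rw [sub_mul, Real.cos_sub]
    ring)
  refine h1.trans (le_of_eq ?_)
  simp only [g]
  rw [Finset.sum_comm]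
  apply Finset.sum_congr rfl
  intro a _
  rw [Finset.sum_comm]
  apply Finset.sum_congr rfl
  intro b _
  rw [← Finset.mul_sum]
  congr 1
  simp only [wsum]
  push_cast
  simp only [Finset.sum_mul]
  rw [Finset.sum_comm]
  apply Finset.sum_congr rfl
  intro n hn
  rw [Finset.mem_range] at hn
  have h2 := cos_sum θ M (d a b - 2 * n) (by have := hdM a b; omega)
  have h3 : (((d a b - 2 * n : ℕ) : ℤ)) = (d a b : ℤ) - 2 * n := by
    have : 2 * n ≤ d a b := by omega
    push_cast [Nat.cast_sub this]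
    ring
  rw [h3] at h2
  rw [← h2, Finset.mul_sum]
  apply Finset.sum_congr rfl
  intro m _
  have h4 : (|m| ≤ (d a b : ℤ) - 2 * n ∧ (2 : ℤ) ∣ (d a b : ℤ) - 2 * n + m) ↔
      (|m| ≤ (d a b : ℤ) - 2 * n ∧ (2 : ℤ) ∣ (d a b : ℤ) + m) := by
    omega
  simp only [h4]
  split_ifs <;> simp

end Pool.Agent.W539.Ker
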