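import Pool.Agent.W539.Ker.Ops
import Pool.Agent.W539.Ker.Fam
import Pool.Agent.W539.Ker.Alg2

/-!
# The algebra of graded matrices of algebraic correspondences
-/

open CategoryTheory AlgebraicGeometry Finset

universe u v

namespace Pool.Agent.W539.Ker

open Pool.Agent.H914 Pool.Agent.H914.VarClass Pool.Agent.H914.VarClass.Obj
  Pool.Agent.H914.WeilCohomology Pool.Agent.H281R3.HT Pool.Agent.W552

variable {k : Type u} [Field k] {𝒱 : VarClass k} {ops : CycleOps 𝒱}
  {W : WeilCohomology.{u, v} ops} {I : Type} [Fintype I] [DecidableEq I] {X : I → 𝒱.Obj}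
  {D : ∀ a, (X a).Cycles} {f : ∀ a, Module.End W.K (W.H (X a))}

section Alg

variable (b : ∀ a, HB W (X a)) (dg : I → ℤ)

omit [Fintype I] [DecidableEq I] in
lemma blk_rat (q : ℚ) (A : Matrix (Ix b) (Ix b) W.K) (a c : I) :
    blk b (q • A) a c = (q : W.K) • blk b A a c := by
  have h1 : q • A = (q : W.K) • A := by
    ext i j
    rw [Matrix.smul_apply, Matrix.smul_apply, Rat.smul_def, smul_eq_mul]
  rw [h1, blk_smul]

/-- The graded matrices of algebraic correspondences. -/
noncomputable def opAlg : Subalgebra ℚ (Matrix (Ix b) (Ix b) W.K) where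
  carrier := {A | ∀ a c, AOp W (X a) (X c) (blk b A a c) ∧ Hm W (dg c - dg a) (blk b A a c)}
  mul_mem' := by
    intro A A' hA hA' a c
    rw [blk_mul]
    refine ⟨AOp.ratSub.sum _ (fun d _ => (hA d c).1.comp (hA' a d).1), Hm.sum _ (fun d _ => ?_)⟩
    have := (hA d c).2.comp (hA' a d).2
    rwa [sub_add_sub_cancel] at this
  add_mem' := by
    intro A A' hA hA' a c
    rw [blk_add]
    exact ⟨(hA a c).1.add (hA' a c).1, (hA a c).2.add (hA' a c).2⟩
  algebraMap_mem' := by
    intro q a c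
    rw [Algebra.algebraMap_eq_smul_one, blk_rat, blk_one]
    split_ifs with h
    · subst h
      refine ⟨AOp.smul q AOp.one, Hm.smul _ ?_⟩
      rw [sub_self]
      exact Hm.one
    · rw [smul_zero]
      exact ⟨AOp.zero, Hm.zero⟩

variable {b dg}

lemma mem_opAlg {A : Matrix (Ix b) (Ix b) W.K} : A ∈ opAlg b dg ↔
    ∀ a c, AOp W (X a) (X c) (blk b A a c) ∧ Hm W (dg c - dg a) (blk b A a c) := Iff.rfl

end Alg

section Form

variable (b : ∀ a, HB W (X a)) (D f) (ε : I → ℤ)

/-- The matrix of the form. -/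
noncomputable def GM : Matrix (Ix b) (Ix b) W.K :=
  Matrix.diagonal (fun x : Ix b => (ε x.1 : W.K)) * Matrix.blockDiagonal' (gram b D f)

variable {b D f ε} (G : ∀ a, Gd W (X a) (D a) (f a)) (hε : ∀ a, ε a * ε a = 1)

lemma dε_comm : Matrix.diagonal (fun x : Ix b => (ε x.1 : W.K)) *
    Matrix.blockDiagonal' (gram b D f) = Matrix.blockDiagonal' (gram b D f) *
      Matrix.diagonal (fun x : Ix b => (ε x.1 : W.K)) := by
  ext ⟨a, r⟩ ⟨c, s⟩
  rw [Matrix.mul_diagonal, Matrix.diagonal_mul]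
  by_cases h : a = c
  · subst h
    rw [mul_comm]
  · rw [Matrix.blockDiagonal'_apply_ne _ _ _ h, zero_mul, mul_zero]

include hε in
lemma dε_sq : Matrix.diagonal (fun x : Ix b => (ε x.1 : W.K)) *
    Matrix.diagonal (fun x : Ix b => (ε x.1 : W.K)) = 1 := by
  rw [Matrix.diagonal_mul_diagonal, ← Matrix.diagonal_one]
  congr 1
  ext i
  have h2 : ((ε i.1 * ε i.1 : ℤ) : W.K) = 1 := by rw [hε i.1]; exact Int.cast_one
  rwa [Int.cast_mul] at h2

lemma E_sq : Matrix.diagonal (fun x : Ix b => (eps b x : W.K)) *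
    Matrix.diagonal (fun x : Ix b => (eps b x : W.K)) = 1 :=
  PosSys.eps_sq (fun i => by rw [eps, ← mul_pow]; norm_num)

include G

lemma isUnit_gram : IsUnit (Matrix.blockDiagonal' (gram b D f) : Matrix (Ix b) (Ix b) W.K) := by
  have h1 : IsUnit (gram b D f) := by
    rw [Pi.isUnit_iff]
    intro a
    rw [← Matrix.mulVec_injective_iff_isUnit]
    intro v w hvw
    have h2 : ∑ p, (v - w) p • (b a).e p = 0 := by
      apply (G a).nondeg
      intro y
      have h3 : ∀ r, bf W (X a) (D a) (f a) ((b a).e r) (∑ p, (v - w) p • (b a).e p) = 0 := by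
        intro r
        have h4 : (Matrix.mulVec (gram b D f a) (v - w)) r = 0 := by
          rw [Matrix.mulVec_sub]
          change Matrix.mulVec _ v = Matrix.mulVec _ w at hvw
          rw [hvw, sub_self]; rfl
        rw [map_sum, ← h4, Matrix.mulVec, dotProduct]
        apply Finset.sum_congr rfl
        intro p _
        rw [map_smul, smul_eq_mul, mul_comm]
        rfl
      rw [← (b a).e.sum_repr y, map_sum (bf W (X a) (D a) (f a)), LinearMap.sum_apply]
      apply Finset.sum_eq_zero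
      intro r _
      rw [map_smul, LinearMap.smul_apply, h3, smul_zero]
    have h5 := Fintype.linearIndependent_iff.1 (b a).e.linearIndependent _ h2
    funext p
    exact sub_eq_zero.1 (h5 p)
  exact h1.map (Matrix.blockDiagonal'RingHom (fun a => Fin (b a).N) W.K)

lemma gramT : (Matrix.blockDiagonal' (gram b D f) : Matrix (Ix b) (Ix b) W.K).transpose =
    Matrix.blockDiagonal' (gram b D f) * Matrix.diagonal (fun x : Ix b => (eps b x : W.K)) := by
  ext ⟨a, r⟩ ⟨c, s⟩
  rw [Matrix.mul_diagonal, Matrix.transpose_apply]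
  by_cases h : a = c
  · subst h
    rw [Matrix.blockDiagonal'_apply_eq, Matrix.blockDiagonal'_apply_eq, gram, Matrix.of_apply,
      Matrix.of_apply, (G a).symm ((b a).mem r) ((b a).mem s)]
    by_cases hrs : (b a).dg r = (b a).dg s
    · rw [eps, hrs]; push_cast; ring
    · rw [(G a).fr.bf_deg ((b a).mem r) ((b a).mem s) hrs, mul_zero, zero_mul]
  · rw [Matrix.blockDiagonal'_apply_ne _ _ _ (Ne.symm h), Matrix.blockDiagonal'_apply_ne _ _ _ h,
      zero_mul]

include hε in
lemma GM_isUnit : IsUnit (GM D f b ε) := by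
  refine IsUnit.mul ?_ (isUnit_gram G)
  exact ⟨⟨_, _, dε_sq hε, dε_sq hε⟩, rfl⟩

lemma GM_transpose : (GM D f b ε).transpose =
    GM D f b ε * Matrix.diagonal (fun x : Ix b => (eps b x : W.K)) := by
  rw [GM, Matrix.transpose_mul, gramT G, Matrix.diagonal_transpose, mul_assoc,
    Matrix.diagonal_mul_diagonal, dε_comm, mul_assoc, Matrix.diagonal_mul_diagonal]
  congr 2
  funext x
  ring

omit G in
lemma GM_mul (A : Matrix (Ix b) (Ix b) W.K) (a c : I) (r : Fin (b a).N) (s : Fin (b c).N) :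
    (GM D f b ε * A) (⟨a, r⟩ : Ix b) (⟨c, s⟩ : Ix b) =
      (ε a : W.K) * bf W (X a) (D a) (f a) ((b a).e r) (blk b A c a ((b c).e s)) := by
  rw [GM, mul_assoc, Matrix.diagonal_mul, gB_mul]

omit G in
lemma mul_GM (A : Matrix (Ix b) (Ix b) W.K) (a c : I) (r : Fin (b a).N) (s : Fin (b c).N) :
    (A.transpose * GM D f b ε) (⟨a, r⟩ : Ix b) (⟨c, s⟩ : Ix b) =
      bf W (X c) (D c) (f c) (blk b A a c ((b a).e r)) ((b c).e s) * (ε c : W.K) := by
  rw [GM, dε_comm, ← mul_assoc, Matrix.mul_diagonal, mul_gB]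

/-- The adjoint in terms of the blocks. -/
lemma adj_blk {A : Matrix (Ix b) (Ix b) W.K}
    {U : ∀ a c, W.H (X a) →ₗ[W.K] W.H (X c)}
    (hU : ∀ a c p q, bf W (X c) (D c) (f c) (blk b A a c p) q =
      bf W (X a) (D a) (f a) p (U c a q)) (hε : ∀ a, ε a * ε a = 1) :
    (GM D f b ε)⁻¹ * A.transpose * GM D f b ε =
      mat b (fun a c => ((ε a * ε c : ℤ) : W.K) • U a c) := by
  have hdet : IsUnit (GM D f b ε).det := (Matrix.isUnit_iff_isUnit_det _).1 (GM_isUnit G hε)
  have h1 : GM D f b ε * mat b (fun a c => ((ε a * ε c : ℤ) : W.K) • U a c) =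
      A.transpose * GM D f b ε := by
    ext ⟨a, r⟩ ⟨c, s⟩
    rw [GM_mul, mul_GM, blk_mat, LinearMap.smul_apply, map_smul, hU, smul_eq_mul]
    have h2 : ((ε a * ε a : ℤ) : W.K) = 1 := by rw [hε a]; exact Int.cast_one
    push_cast at h2 ⊢
    linear_combination ((ε c : W.K) * bf W (X a) (D a) (f a) ((b a).e r) (U c a ((b c).e s))) * h2
  rw [mul_assoc, ← h1, ← mul_assoc, Matrix.nonsing_inv_mul _ hdet, one_mul]

end Form

/-- The matrix with a single block. -/
noncomputable def sng (b : ∀ a, HB W (X a)) (a c : I) (u : W.H (X a) →ₗ[W.K] W.H (X c)) :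
    Matrix (Ix b) (Ix b) W.K :=
  mat b (Function.update (fun a c => (0 : W.H (X a) →ₗ[W.K] W.H (X c))) a
    (Function.update (fun c => (0 : W.H (X a) →ₗ[W.K] W.H (X c))) c u))

omit [Fintype I] in
lemma blk_sng {b : ∀ a, HB W (X a)} (a c : I) (u : W.H (X a) →ₗ[W.K] W.H (X c)) :
    blk b (sng b a c u) a c = u := by
  rw [sng, blk_mat, Function.update_self, Function.update_self]

omit [Fintype I] in
lemma blk_sng_ne {b : ∀ a, HB W (X a)} {a c : I} (u : W.H (X a) →ₗ[W.K] W.H (X c)) {a' c' : I}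
    (h : (a', c') ≠ (a, c)) : blk b (sng b a c u) a' c' = 0 := by
  rw [sng, blk_mat]
  by_cases ha : a' = a
  · subst ha
    rw [Function.update_self, Function.update_of_ne]
    rintro rfl
    exact h rfl
  · rw [Function.update_of_ne ha]

/-- **The main inequality for the signatures, with integral weights and signs.** -/
theorem main_ineq (G : ∀ a, Gd W (X a) (D a) (f a)) (dg ε : I → ℤ)
    (hε : ∀ a, ε a * ε a = 1) :
    0 ≤ ∑ a, ∑ c, ε a * ε c * wsum ((X a).prod (X c)).dim
      (sig W ((X a).prod (X c)) (ops.pull (fst (X a) (X c)) (D a) +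
        ops.pull (snd (X a) (X c)) (D c))) (dg c - dg a) := by
  classical
  have b : ∀ a, HB W (X a) := fun a => (exists_HB W (X a)).some
  -- adjoints
  have hadj : ∀ A ∈ opAlg b dg, ∃ U : ∀ a c, W.H (X a) →ₗ[W.K] W.H (X c),
      (∀ a c, AOp W (X a) (X c) (U a c) ∧ Hm W (dg c - dg a) (U a c)) ∧
      ∀ a c p q, bf W (X c) (D c) (f c) (blk b A a c p) q =
        bf W (X a) (D a) (f a) p (U c a q) := by
    intro A hA
    choose U hU1 hU2 using fun a c => (G c).adj (G a) (hA c a).1
    refine ⟨U, fun a c => ⟨hU1 a c, ?_⟩, fun a c p q => hU2 c a p q⟩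
    have := (G c).hm_adj (G a) (hU2 a c) (hA c a).2
    rwa [neg_sub] at this
  obtain ⟨B, hB, hBs, hBn⟩ := exists_form (opAlg b dg) (GM D f b ε)
    (Matrix.diagonal (fun x : Ix b => (eps b x : W.K))) (GM_isUnit G hε) E_sq (GM_transpose G)
    (by
      intro A hA
      obtain ⟨U, hU1, hU2⟩ := hadj A hA
      rw [adj_blk G hU2 hε]
      intro a c
      rw [blk_mat]
      refine ⟨?_, (hU1 a c).2.smul _⟩
      have := AOp.smul ((ε a * ε c : ℤ) : ℚ) (hU1 a c).1
      rwa [Rat.cast_intCast] at this)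
    (by
      intro A hA
      apply mat_ext
      intro a c
      rw [blk_mul, blk_mul, Finset.sum_eq_single a, Finset.sum_eq_single c]
      · obtain ⟨x, hx, hx'⟩ := (hA a c).1
        rw [← hx', blk_eps, blk_eps, dif_pos rfl, dif_pos rfl]
        exact (par_corr hx).symm
      · intro d _ hd
        rw [blk_eps, dif_neg hd, LinearMap.zero_comp]
      · intro h0; exact absurd (Finset.mem_univ _) h0
      · intro d _ hd
        rw [blk_eps, dif_neg (Ne.symm hd), LinearMap.comp_zero]
      · intro h0; exact absurd (Finset.mem_univ _) h0)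
    (by
      intro A hA
      choose q hq using fun a => (G a).trace_rat (hA a a).1
      refine ⟨∑ a, q a, ?_⟩
      rw [trace_eq_sum, Rat.cast_sum]
      exact Finset.sum_congr rfl (fun a _ => hq a))
  -- the form in terms of the classes of the blocks
  have hform : ∀ (A A' : opAlg b dg)
      (x x' : ∀ a c, W.H ((X a).prod (X c))), (∀ a c, AS W _ (x a c)) → (∀ a c, AS W _ (x' a c)) →
      (∀ a c, W.corr (x a c) = blk b (A : Matrix (Ix b) (Ix b) W.K) a c) →
      (∀ a c, W.corr (x' a c) = blk b (A' : Matrix (Ix b) (Ix b) W.K) a c) →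
      ((B A A' : ℚ) : W.K) = ∑ a, ∑ c, ((ε a * ε c : ℤ) : W.K) *
        bf W ((X a).prod (X c)) (ops.pull (fst (X a) (X c)) (D a) +
          ops.pull (snd (X a) (X c)) (D c)) (extSum W (f a) (f c)) (x' a c) (x a c) := by
    intro A A' x x' hx hx' hxA hxA'
    obtain ⟨U, hU1, hU2⟩ := hadj _ A'.2
    rw [hB, adj_blk G hU2 hε, trace_eq_sum]
    simp only [blk_mul, map_sum, blk_mat]
    rw [Finset.sum_comm]
    apply Finset.sum_congr rfl
    intro a _
    apply Finset.sum_congr rfl
    intro c _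
    rw [LinearMap.comp_smul, map_smul, smul_eq_mul, LinearMap.trace_comp_comm',
      ← (G a).trace_corr (G c) (hx a c) (hx' a c) (u' := U c a) (by
        intro p q
        rw [hxA', hU2]), hxA]
    rw [mul_comm (ε c) (ε a)]
  -- the classes of the blocks
  choose cls hcls hclsA using fun (A : opAlg b dg) (a c : I) => (A.2 a c).1
  have hform' : ∀ A A' : opAlg b dg, ((B A A' : ℚ) : W.K) = ∑ a, ∑ c, ((ε a * ε c : ℤ) : W.K) *
        bf W ((X a).prod (X c)) (ops.pull (fst (X a) (X c)) (D a) +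
          ops.pull (snd (X a) (X c)) (D c)) (extSum W (f a) (f c)) (cls A' a c) (cls A a c) :=
    fun A A' => hform A A' (cls A) (cls A') (hcls A) (hcls A') (hclsA A) (hclsA A')
  -- the orthogonal families
  choose ι hι y s hyA hyw hs0 hyy hyo hymax hsum using fun (p : I × I) =>
    exists_fam ((G p.1).fr.prod (G p.2).fr) (dg p.2 - dg p.1)
  let _ := hι
  have hZmem : ∀ t : (Σ p, ι p), sng b t.1.1 t.1.2 (W.corr (y t.1 t.2)) ∈ opAlg b dg := by
    rintro ⟨p, t⟩ a c
    by_cases hp : (a, c) = (p.1, p.2)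
    · obtain ⟨p1, p2⟩ := p
      obtain ⟨rfl, rfl⟩ := Prod.mk.inj hp
      rw [blk_sng]
      exact ⟨⟨_, hyA (a, c) t, rfl⟩, hm_corr.2 (hyw (a, c) t)⟩
    · rw [blk_sng_ne _ hp]
      exact ⟨AOp.zero, Hm.zero⟩
  let Z : (Σ p, ι p) → opAlg b dg := fun t => ⟨_, hZmem t⟩
  have hZ1 : ∀ (p : I × I) (t : ι p), cls (Z ⟨p, t⟩) p.1 p.2 = y p t := by
    intro p t
    rw [← sub_eq_zero]
    apply corr_inj
    have h1 := hclsA (Z ⟨p, t⟩) p.1 p.2
    change _ = blk b (sng b p.1 p.2 (W.corr (y p t))) p.1 p.2 at h1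
    rw [blk_sng] at h1
    have h2 : W.corr (cls (Z ⟨p, t⟩) p.1 p.2 - y p t) =
        W.corr (cls (Z ⟨p, t⟩) p.1 p.2) - W.corr (y p t) := by
      ext a; simp [sub_mul]
    rw [h2, h1, sub_self]
  have hZ2 : ∀ (p : I × I) (t : ι p) (a c : I), (a, c) ≠ p → cls (Z ⟨p, t⟩) a c = 0 := by
    intro p t a c hne
    apply corr_inj
    rw [hclsA (Z ⟨p, t⟩) a c]
    exact blk_sng_ne _ hne
  have hBZ : ∀ (A : opAlg b dg) (p : I × I) (t : ι p), ((B A (Z ⟨p, t⟩) : ℚ) : W.K) =
      ((ε p.1 * ε p.2 : ℤ) : W.K) * bf W ((X p.1).prod (X p.2))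
        (ops.pull (fst (X p.1) (X p.2)) (D p.1) + ops.pull (snd (X p.1) (X p.2)) (D p.2))
        (extSum W (f p.1) (f p.2)) (y p t) (cls A p.1 p.2) := by
    intro A p t
    rw [hform', Finset.sum_eq_single p.1, Finset.sum_eq_single p.2, hZ1]
    · intro c _ hc
      rw [hZ2 p t p.1 c (fun h => hc (congrArg Prod.snd h)), map_zero, LinearMap.zero_apply,
        mul_zero]
    · intro h0; exact absurd (Finset.mem_univ _) h0
    · intro a _ ha
      apply Finset.sum_eq_zero
      intro c _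
      rw [hZ2 p t a c (fun h => ha (congrArg Prod.fst h)), map_zero, LinearMap.zero_apply,
        mul_zero]
    · intro h0; exact absurd (Finset.mem_univ _) h0
  have hee : ∀ p : I × I, ε p.1 * ε p.2 = 1 ∨ ε p.1 * ε p.2 = -1 := by
    intro p
    apply mul_self_eq_one_iff.1
    calc ε p.1 * ε p.2 * (ε p.1 * ε p.2) = (ε p.1 * ε p.1) * (ε p.2 * ε p.2) := by ring
      _ = 1 := by rw [hε, hε, one_mul]
  have hee0 : ∀ p : I × I, ((ε p.1 * ε p.2 : ℤ) : W.K) ≠ 0 := by
    intro p
    rcases hee p with h | h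
    · rw [h]; simp
    · rw [h]; simp
  have hBZZ : ∀ (p : I × I) (t : ι p), B (Z ⟨p, t⟩) (Z ⟨p, t⟩) =
      ((ε p.1 * ε p.2 : ℤ) : ℚ) * s p t := by
    intro p t
    have h1 := hBZ (Z ⟨p, t⟩) p t
    rw [hZ1, hyy] at h1
    exact_mod_cast h1
  have hOM : OM B Z := by
    refine ⟨?_, ?_, ?_⟩
    · rintro ⟨p, t⟩
      rw [hBZZ]
      refine mul_ne_zero ?_ (hs0 p t)
      rcases hee p with h | h
      · rw [h]; simp
      · rw [h]; simp
    · rintro ⟨p, t⟩ ⟨p', t'⟩ hne
      have h1 := hBZ (Z ⟨p, t⟩) p' t'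
      by_cases hp : p = p'
      · subst hp
        rw [hZ1, hyo p t' t (fun h => hne (by rw [h])), mul_zero] at h1
        exact_mod_cast h1
      · rw [hZ2 p t p'.1 p'.2 (fun h => hp h.symm), map_zero, mul_zero] at h1
        exact_mod_cast h1
    · intro A hA
      have key : ∀ p : I × I, bf W ((X p.1).prod (X p.2))
          (ops.pull (fst (X p.1) (X p.2)) (D p.1) + ops.pull (snd (X p.1) (X p.2)) (D p.2))
          (extSum W (f p.1) (f p.2)) (cls A p.1 p.2) (cls A p.1 p.2) = 0 := by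
        intro p
        apply hymax p _ (hcls A p.1 p.2)
        · rw [← hm_corr, hclsA]
          exact (A.2 p.1 p.2).2
        · intro t
          have h1 := hBZ A p t
          rw [hA ⟨p, t⟩, Rat.cast_zero] at h1
          have h2 := (mul_eq_zero.1 h1.symm).resolve_left (hee0 p)
          rw [Sy.prod (G p.1).fr (G p.2).fr (G p.1).sy (G p.2).sy]
          have h3 : par (W.isInternal ((X p.1).prod (X p.2))) (y p t) = y p t := by
            refine AS.ind (p := fun y => par (W.isInternal ((X p.1).prod (X p.2))) y = y)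
              ?_ ?_ (hyA p t)
            · intro j y hy
              rw [par, scal_apply _ _ (alg_gr hy), pow_mul]
              simp
            · intro y y' hy hy'
              rw [map_add, hy, hy']
          rw [h3]
          exact h2
      have h1 : ((B A A : ℚ) : W.K) = 0 := by
        rw [hform']
        apply Finset.sum_eq_zero
        intro a _
        apply Finset.sum_eq_zero
        intro c _
        rw [key (a, c), mul_zero]
      exact_mod_cast h1
  have hfin := hBn _ Z hOM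
  rw [Fintype.sum_sigma, Fintype.sum_prod_type] at hfin
  refine hfin.trans (le_of_eq ?_)
  apply Finset.sum_congr rfl
  intro a _
  apply Finset.sum_congr rfl
  intro c _
  rw [← hsum (a, c), Finset.mul_sum]
  apply Finset.sum_congr rfl
  intro t _
  rw [hBZZ, sign_mul]
  rcases hee (a, c) with h | h
  · change ε a * ε c = 1 at h
    change (((SignType.sign ((ε a * ε c : ℤ) : ℚ) : SignType) * _ : SignType) : ℤ) = _
    rw [h]; simp
  · change ε a * ε c = -1 at h
    change (((SignType.sign ((ε a * ε c : ℤ) : ℚ) : SignType) * _ : SignType) : ℤ) = _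
    rw [h]; simp

end Pool.Agent.W539.Ker
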