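import Pool.Agent.H281R3.HT.Defs

/-!
# The signatures of the pairings of the standard conjecture of Hodge type
-/

open CategoryTheory AlgebraicGeometry

universe u v

namespace Pool.Agent.W539.Ker

open Pool.Agent.H914 Pool.Agent.H914.VarClass Pool.Agent.H914.VarClass.Obj
  Pool.Agent.H281R3.HT

variable {k : Type u} [Field k] {𝒱 : VarClass k} {ops : CycleOps 𝒱}

/-- The cycle `z` on `X` has codimension `n`, and its class is primitive for the divisor `D`:
the class of `D ^ (d - 2 n + 1) · z` vanishes, where `d = dim X`. -/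
def Primitive (W : WeilCohomology.{u, v} ops) (X : 𝒱.Obj) (D : X.Cycles) (n : ℕ)
    (z : X.Cycles) : Prop :=
  X.IsCyc n z ∧ W.cl X (divPow ops D (X.dim - 2 * n + 1) z) = 0

/-- The pairing `⟨z, w⟩ = (-1) ^ n deg (z · D ^ (d - 2 n) · w)` on the cycles of codimension `n`
on `X`, where `d = dim X`. -/
noncomputable def pairing (ops : CycleOps 𝒱) (X : 𝒱.Obj) (D : X.Cycles) (n : ℕ)
    (z w : X.Cycles) : ℚ :=
  (-1 : ℚ) ^ n * X.V.degCycle (ops.mul z (divPow ops D (X.dim - 2 * n) w))

/-- There are `r` pairwise orthogonal primitive cycles `z` of codimension `n` on `X` for which the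
number `s * ⟨z, z⟩` is positive. -/
def HasFamily (W : WeilCohomology.{u, v} ops) (X : 𝒱.Obj) (D : X.Cycles) (n : ℕ) (s : ℚ)
    (r : ℕ) : Prop :=
  ∃ z : Fin r → X.Cycles, (∀ i, Primitive W X D n (z i)) ∧
    (∀ i, 0 < s * pairing ops X D n (z i) (z i)) ∧
    ∀ i j, i ≠ j → pairing ops X D n (z i) (z j) = 0

/-- The signature of the pairing `⟨·, ·⟩` on the primitive cycles of codimension `n` on `X`: the
largest number of pairwise orthogonal primitive cycles with positive squares, minus the largest
number of pairwise orthogonal primitive cycles with negative squares. -/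
noncomputable def sig (W : WeilCohomology.{u, v} ops) (X : 𝒱.Obj) (D : X.Cycles) (n : ℕ) : ℤ :=
  (sSup {r | HasFamily W X D n 1 r} : ℕ) - (sSup {r | HasFamily W X D n (-1) r} : ℕ)

/-- The sum over `n ≤ d / 2`, `d = dim X + dim Y`, of the signature of the pairing on the primitive
cycles of codimension `n` on `X × Y` times the value at `x` of the Chebyshev polynomial
`U_(d - 2 n)` of the second kind. -/
noncomputable def sigKernel (W : WeilCohomology.{u, v} ops) (P Q : Polarized 𝒱) (x : ℝ) : ℝ :=
  ∑ n ∈ Finset.range ((P.prod ops Q).X.dim / 2 + 1),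
    (sig W (P.prod ops Q).X (P.prod ops Q).D n : ℝ) *
      (Polynomial.Chebyshev.U ℝ ((P.prod ops Q).X.dim - 2 * n)).eval x

end Pool.Agent.W539.Ker
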