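import Pool.Agent.W539.Ker.Blk
import Pool.Agent.W539.Ker.Ana

/-!
# The matrix of the signatures is positive semidefinite
-/

open CategoryTheory AlgebraicGeometry Finset

universe u v

namespace Pool.Agent.W539.Ker

open Pool.Agent.H914 Pool.Agent.H914.VarClass Pool.Agent.H914.VarClass.Obj
  Pool.Agent.H914.WeilCohomology Pool.Agent.H281R3.HT Pool.Agent.W552

variable {k : Type u} [Field k] {𝒱 : VarClass k} {ops : CycleOps 𝒱}
  {W : WeilCohomology.{u, v} ops} {X Y : 𝒱.Obj}

/-- Interchanging the factors preserves the orientation. -/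
lemma tr_swap (c : W.H (Y.prod X)) : W.tr (X.prod Y) (W.map (swap X Y) c) = W.tr _ c := by
  refine W.kunneth_induction (p := fun c => W.tr (X.prod Y) (W.map (swap X Y) c) = W.tr _ c)
    ?_ ?_ c
  · intro a b ha hb
    rw [map_add, map_add, map_add, ha, hb]
  · intro i j a ha b hb
    rw [map_mul (W.map (swap X Y)), ← W.map_comp, ← W.map_comp, swap_fst, swap_snd,
      W.comm (W.map_mem _ ha) (W.map_mem _ hb), map_smul, W.tr_prod, W.tr_prod]
    by_cases hi : i = 2 * Y.dim
    · rw [hi, mul_assoc, pow_mul]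
      simp [mul_comm]
    · rw [W.tr_eq_zero ha hi]
      simp

lemma hasFamily_swap {D : X.Cycles} {E : Y.Cycles} (hD : X.IsCyc 1 D) (hE : Y.IsCyc 1 E) {n : ℕ}
    (hn : 2 * n ≤ X.dim + Y.dim) {s : ℚ} {r : ℕ}
    (h : HasFamily W (Y.prod X) (ops.pull (fst Y X) E + ops.pull (snd Y X) D) n s r) :
    HasFamily W (X.prod Y) (ops.pull (fst X Y) D + ops.pull (snd X Y) E) n s r := by
  obtain ⟨z, hz, hpos, horth⟩ := h
  set Δ := ops.pull (fst X Y) D + ops.pull (snd X Y) E with hΔ
  set Δ' := ops.pull (fst Y X) E + ops.pull (snd Y X) D with hΔ'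
  have hc1 : (X.prod Y).IsCyc 1 Δ :=
    SmVar.IsCyc.add (ops.pull_mem _ hD) (ops.pull_mem _ hE)
  have hc1' : (Y.prod X).IsCyc 1 Δ' :=
    SmVar.IsCyc.add (ops.pull_mem _ hE) (ops.pull_mem _ hD)
  have hcl : W.map (swap X Y) (W.cl _ Δ') = W.cl _ Δ := by
    rw [hΔ, hΔ', map_add, map_add, W.cl_pull, W.cl_pull, map_add, W.cl_pull, W.cl_pull,
      ← W.map_comp, ← W.map_comp, swap_fst, swap_snd, add_comm]
  have hpow : ∀ (m : ℕ) (x : W.H (Y.prod X)),
      ((LinearMap.mulLeft W.K (W.cl (X.prod Y) Δ)) ^ m) (W.map (swap X Y) x) =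
        W.map (swap X Y) (((LinearMap.mulLeft W.K (W.cl (Y.prod X) Δ')) ^ m) x) := by
    intro m
    induction m with
    | zero => intro x; simp
    | succ m ih =>
      intro x
      rw [pow_succ, Module.End.mul_apply, LinearMap.mulLeft_apply, ← hcl, ← map_mul, hcl, ih,
        pow_succ, Module.End.mul_apply, LinearMap.mulLeft_apply]
  have hprim : ∀ i, Primitive W (X.prod Y) Δ n (ops.pull (swap X Y) (z i)) := by
    intro i
    refine ⟨ops.pull_mem _ (hz i).1, ?_⟩
    have h1 := (hz i).2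
    rw [cl_divPow] at h1
    rw [cl_divPow, W.cl_pull, hpow]
    rw [show (X.prod Y).dim = (Y.prod X).dim from by rw [dim_prod, dim_prod, add_comm], h1,
      map_zero]
  have hpair : ∀ i j, pairing ops (X.prod Y) Δ n (ops.pull (swap X Y) (z i))
      (ops.pull (swap X Y) (z j)) = pairing ops (Y.prod X) Δ' n (z i) (z j) := by
    intro i j
    have h1 : ((pairing ops (X.prod Y) Δ n (ops.pull (swap X Y) (z i))
      (ops.pull (swap X Y) (z j)) : ℚ) : W.K) =
        ((pairing ops (Y.prod X) Δ' n (z i) (z j) : ℚ) : W.K) := by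
      rw [pairing_cast hc1 (by rw [dim_prod]; omega) (hprim i).1 (hprim j).1,
        pairing_cast hc1' (by rw [dim_prod]; omega) (hz i).1 (hz j).1, W.cl_pull, W.cl_pull, hpow,
        ← map_mul, tr_swap]
      rw [show (X.prod Y).dim = (Y.prod X).dim from by rw [dim_prod, dim_prod, add_comm]]
    exact_mod_cast h1
  exact ⟨fun i => ops.pull (swap X Y) (z i), hprim, fun i => by rw [hpair]; exact hpos i,
    fun i j hij => by rw [hpair]; exact horth i j hij⟩

lemma sig_swap (W : WeilCohomology.{u, v} ops) {D : X.Cycles} {E : Y.Cycles}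
    (hD : X.IsCyc 1 D) (hE : Y.IsCyc 1 E) {n : ℕ} (hn : 2 * n ≤ X.dim + Y.dim) :
    sig W (X.prod Y) (ops.pull (fst X Y) D + ops.pull (snd X Y) E) n =
      sig W (Y.prod X) (ops.pull (fst Y X) E + ops.pull (snd Y X) D) n := by
  rw [sig, sig]
  have h : ∀ s, {r | HasFamily W (X.prod Y) (ops.pull (fst X Y) D + ops.pull (snd X Y) E) n s r} =
      {r | HasFamily W (Y.prod X) (ops.pull (fst Y X) E + ops.pull (snd Y X) D) n s r} := by
    intro s
    ext r
    exact ⟨fun h => hasFamily_swap hE hD (by omega) h, fun h => hasFamily_swap hD hE hn h⟩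
  rw [h, h]

lemma sigKernel_symm (W : WeilCohomology.{u, v} ops) {P Q : Polarized 𝒱}
    (hP : P.X.IsCyc 1 P.D) (hQ : Q.X.IsCyc 1 Q.D) (x : ℝ) :
    sigKernel W P Q x = sigKernel W Q P x := by
  have hd : (P.prod ops Q).X.dim = (Q.prod ops P).X.dim := by
    change P.X.dim + Q.X.dim = Q.X.dim + P.X.dim
    rw [add_comm]
  rw [sigKernel, sigKernel, hd]
  apply Finset.sum_congr rfl
  intro n hn
  rw [Finset.mem_range] at hn
  congr 2
  have hd' : (Q.prod ops P).X.dim = Q.X.dim + P.X.dim := rfl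
  rw [hd'] at hn
  exact sig_swap W hP hQ (by omega)

/-- **The matrix of the signatures is positive semidefinite.** -/
theorem posSemidef {Λ : Type} [Fintype Λ] (P : Λ → Polarized 𝒱)
    (hD : ∀ a, (P a).X.IsCyc 1 (P a).D) (hHL : ∀ a, HardLefschetz W (P a).X (P a).D)
    (hB : ∀ a, LefschetzB W (P a).X (P a).D) {x : ℝ} (hx : x ∈ Set.Icc (-1 : ℝ) 1) :
    (Matrix.of fun a b => sigKernel W (P a) (P b) x).PosSemidef := by
  choose f G using fun a => exists_gd (hD a) (hHL a) (hB a)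
  have hx' : Real.cos (Real.arccos x) = x := Real.cos_arccos hx.1 hx.2
  refine Matrix.PosSemidef.of_dotProduct_mulVec_nonneg ?_ ?_
  · ext a b
    rw [Matrix.conjTranspose_apply, Matrix.of_apply, Matrix.of_apply, star_trivial,
      sigKernel_symm W (hD b) (hD a)]
  · intro c
    have h1 := kernel_nonneg (Λ := Λ) (d := fun a b => ((P a).prod ops (P b)).X.dim)
      (s := fun a b n => sig W ((P a).prod ops (P b)).X ((P a).prod ops (P b)).D n)
      (by
        intro I _ _ α dg ε hε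
        exact main_ineq (fun a => G (α a)) dg ε hε) c (Real.arccos x)
    rw [hx'] at h1
    rw [star_trivial, dotProduct]
    refine h1.trans (le_of_eq ?_)
    apply Finset.sum_congr rfl
    intro a _
    rw [Matrix.mulVec, dotProduct, Finset.mul_sum]
    apply Finset.sum_congr rfl
    intro b _
    rw [Matrix.of_apply, sigKernel]
    ring

/-- **Partial sums.** -/
theorem partial_sums {P : Polarized 𝒱} (hD : P.X.IsCyc 1 P.D)
    (hHL : HardLefschetz W P.X P.D) (hB : LefschetzB W P.X P.D) {m : ℕ} (hm : m ≤ P.X.dim) :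
    0 ≤ ∑ n ∈ Icc m P.X.dim, sig W (P.prod ops P).X (P.prod ops P).D n := by
  obtain ⟨f, G⟩ := exists_gd hD hHL hB
  have h1 := main_ineq (I := Fin 2) (X := fun _ => P.X) (D := fun _ => P.D) (f := fun _ => f)
    (fun _ => G) ![0, 2 * ((P.X.dim : ℤ) - m + 1)] ![1, -1] (by
      intro a
      fin_cases a <;> simp)
  set d := P.X.dim with hd
  set s := sig W (P.prod ops P).X (P.prod ops P).D with hs
  have h2 : (P.X.prod P.X).dim = 2 * d := by
    rw [dim_prod]; ring
  have h3 : (0 : ℤ) ≤ 2 * (wsum (2 * d) s 0 - wsum (2 * d) s (2 * ((d : ℤ) - m + 1))) := by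
    have h4 := h1
    simp only [Fin.sum_univ_two, Matrix.cons_val_zero, Matrix.cons_val_one, sub_self,
      sub_zero, zero_sub, neg_zero] at h4
    rw [h2] at h4
    have h5 : sig W (P.X.prod P.X) (ops.pull (fst P.X P.X) P.D + ops.pull (snd P.X P.X) P.D) =
      s := rfl
    rw [h5, wsum_neg (2 * d) s (2 * ((d : ℤ) - m + 1))] at h4
    linarith
  have h4 : wsum (2 * d) s 0 - wsum (2 * d) s (2 * ((d : ℤ) - m + 1)) =
      ∑ n ∈ Icc m d, s n := by
    rw [wsum, wsum, ← Finset.sum_sub_distrib, ← Finset.sum_filter_add_sum_filter_not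
      (range (2 * d / 2 + 1)) (fun n => m ≤ n)]
    have e1 : (range (2 * d / 2 + 1)).filter (fun n => m ≤ n) = Icc m d := by
      ext n
      rw [Finset.mem_filter, Finset.mem_range, Finset.mem_Icc]
      omega
    rw [e1]
    have e2 : ∀ n ∈ Icc m d, ((if |(0 : ℤ)| ≤ ((2 * d : ℕ) : ℤ) - 2 * n ∧
        (2 : ℤ) ∣ ((2 * d : ℕ) : ℤ) + 0 then s n else 0) -
        (if |2 * ((d : ℤ) - m + 1)| ≤ ((2 * d : ℕ) : ℤ) - 2 * n ∧
        (2 : ℤ) ∣ ((2 * d : ℕ) : ℤ) + 2 * ((d : ℤ) - m + 1) then s n else 0)) = s n := by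
      intro n hn
      rw [Finset.mem_Icc] at hn
      rw [if_pos, if_neg, sub_zero]
      · rintro ⟨h5, -⟩
        rw [abs_of_nonneg (by omega)] at h5
        omega
      · rw [abs_zero]
        omega
    have e3 : ∀ n ∈ (range (2 * d / 2 + 1)).filter (fun n => ¬ m ≤ n),
        ((if |(0 : ℤ)| ≤ ((2 * d : ℕ) : ℤ) - 2 * n ∧
        (2 : ℤ) ∣ ((2 * d : ℕ) : ℤ) + 0 then s n else 0) -
        (if |2 * ((d : ℤ) - m + 1)| ≤ ((2 * d : ℕ) : ℤ) - 2 * n ∧
        (2 : ℤ) ∣ ((2 * d : ℕ) : ℤ) + 2 * ((d : ℤ) - m + 1) then s n else 0)) = 0 := by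
      intro n hn
      rw [Finset.mem_filter, Finset.mem_range] at hn
      rw [if_pos, if_pos, sub_self]
      · rw [abs_of_nonneg (by omega)]
        omega
      · rw [abs_zero]
        omega
    rw [Finset.sum_congr rfl e2, Finset.sum_congr rfl e3, Finset.sum_const_zero, add_zero]
  rw [h4] at h3
  linarith

end Pool.Agent.W539.Ker
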