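import Pool.Agent.W552.Nest
import Pool.Agent.W539.Ker.Defs
import Pool.Agent.W539.Ker.Inertia

/-!
# The signature of the form on the algebraic classes of a given codimension
-/

open CategoryTheory AlgebraicGeometry Finset

universe u v

namespace Pool.Agent.W539.Ker

open Pool.Agent.H914 Pool.Agent.H914.VarClass Pool.Agent.H914.VarClass.Obj
  Pool.Agent.H914.WeilCohomology Pool.Agent.H281R3.HT Pool.Agent.W552

section Decomp

variable {K : Type*} [Field K] [CharZero K] {V : Type*} [AddCommGroup V] [Module K V]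

/-- A rational Lefschetz structure. -/
structure AP (gr : ℕ → Submodule K V) (n : ℕ) (L : Module.End K V) (C : ℕ → Set V) : Prop where
  sub : ∀ l, ∀ c ∈ C l, c ∈ gr (2 * l)
  zero : ∀ l, (0 : V) ∈ C l
  add : ∀ l, ∀ c ∈ C l, ∀ d ∈ C l, c + d ∈ C l
  neg : ∀ l, ∀ c ∈ C l, -c ∈ C l
  map_L : ∀ l, ∀ c ∈ C l, L c ∈ C (l + 1)
  hl : ∀ l, 2 * l ≤ n → ∀ c ∈ C (n - l), ∃ c' ∈ C l, (L ^ (n - 2 * l)) c' = c

namespace AP

variable {gr : ℕ → Submodule K V} {n : ℕ} {L : Module.End K V} {C : ℕ → Set V}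
  (hC : AP gr n L C)

include hC

omit [CharZero K] in
lemma map_L_pow (k : ℕ) {l : ℕ} {c : V} (hc : c ∈ C l) : (L ^ k) c ∈ C (l + k) := by
  induction k with
  | zero => simpa using hc
  | succ k ih =>
    rw [pow_succ', Module.End.mul_apply, ← add_assoc]
    exact hC.map_L _ _ ih

omit [CharZero K] in
/-- Primitive decomposition, in codimension at most `n / 2`. -/
lemma decomp_low (hL : IsHom gr 2 L) (hbd : ∀ i, 2 * n + 1 ≤ i → gr i = ⊥) :
    ∀ l, 2 * l ≤ n → ∀ c ∈ C l, ∃ u : ℕ → V, (∀ b ≤ l, u b ∈ C (l - b) ∧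
      (L ^ (n - 2 * (l - b) + 1)) (u b) = 0) ∧ c = ∑ b ∈ range (l + 1), (L ^ b) (u b) := by
  intro l
  induction l with
  | zero =>
    intro _ c hc
    refine ⟨fun _ => c, fun b hb => ?_, by simp⟩
    have : b = 0 := by omega
    subst this
    refine ⟨hc, ?_⟩
    have h1 := pow_L_mem hL (hC.sub 0 c hc) (n + 1)
    rw [hbd _ (by omega)] at h1
    simpa using (Submodule.mem_bot _).1 h1
  | succ l ih =>
    intro hl c hc
    have h1 : (L ^ (n - 2 * (l + 1) + 1)) c ∈ C (n - l) := by
      have := hC.map_L_pow (n - 2 * (l + 1) + 1) hc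
      rwa [show l + 1 + (n - 2 * (l + 1) + 1) = n - l by omega] at this
    obtain ⟨c', hc', h2⟩ := hC.hl l (by omega) _ h1
    obtain ⟨u, hu, hsum⟩ := ih (by omega) c' hc'
    refine ⟨fun b => if b = 0 then c - L c' else u (b - 1), ?_, ?_⟩
    · intro b hb
      beta_reduce
      rcases Nat.eq_zero_or_pos b with rfl | h0
      · rw [if_pos rfl, Nat.sub_zero]
        constructor
        · rw [sub_eq_add_neg]
          exact hC.add _ _ hc _ (hC.neg _ _ (hC.map_L _ _ hc'))
        · rw [map_sub, ← h2, sub_eq_zero, ← Module.End.mul_apply, ← pow_succ]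
          congr 2
          omega
      · rw [if_neg (by omega)]
        have h3 := hu (b - 1) (by omega)
        rw [show l - (b - 1) = l + 1 - b by omega] at h3
        exact h3
    · rw [Finset.sum_range_succ']
      simp only [Nat.add_eq_zero_iff, one_ne_zero, and_false, if_false, Nat.add_sub_cancel,
        pow_zero, Module.End.one_apply, if_true]
      have h3 : ∑ b ∈ range (l + 1), (L ^ (b + 1)) (u b) = L c' := by
        rw [hsum, map_sum]
        apply Finset.sum_congr rfl
        intro b _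
        rw [pow_succ', Module.End.mul_apply]
      rw [h3]
      abel

omit [CharZero K] in
/-- Primitive decomposition. -/
lemma decomp (hL : IsHom gr 2 L) (hbd : ∀ i, 2 * n + 1 ≤ i → gr i = ⊥) {l : ℕ} {c : V}
    (hc : c ∈ C l) : ∃ u : ℕ → V, (∀ b ≤ l, u b ∈ C (l - b) ∧
      (u b ≠ 0 → 2 * (l - b) ≤ n) ∧ (L ^ (n - 2 * (l - b) + 1)) (u b) = 0) ∧
      c = ∑ b ∈ range (l + 1), (L ^ b) (u b) := by
  by_cases h1 : 2 * l ≤ n
  · obtain ⟨u, hu, hs⟩ := hC.decomp_low hL hbd l h1 c hc
    exact ⟨u, fun b hb => ⟨(hu b hb).1, fun _ => by omega, (hu b hb).2⟩, hs⟩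
  · by_cases h2 : l ≤ n
    · obtain ⟨c', hc', hcc⟩ := hC.hl (n - l) (by omega) c
        (by rw [show n - (n - l) = l by omega]; exact hc)
      obtain ⟨u, hu, hs⟩ := hC.decomp_low hL hbd (n - l) (by omega) c' hc'
      refine ⟨fun b => if n - 2 * (n - l) ≤ b then u (b - (n - 2 * (n - l))) else 0, ?_, ?_⟩
      · intro b hb
        beta_reduce
        by_cases hb2 : n - 2 * (n - l) ≤ b
        · rw [if_pos hb2]
          have h3 := hu (b - (n - 2 * (n - l))) (by omega)
          rw [show n - l - (b - (n - 2 * (n - l))) = l - b by omega] at h3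
          exact ⟨h3.1, fun _ => by omega, h3.2⟩
        · rw [if_neg hb2]
          exact ⟨hC.zero _, fun h => absurd rfl h, map_zero _⟩
      · rw [← hcc, hs, map_sum]
        symm
        rw [← Finset.sum_subset (s₁ := (range (n - l + 1)).image (fun b => b + (n - 2 * (n - l))))]
        · rw [Finset.sum_image (by intro a _ b _ h; simpa using h)]
          apply Finset.sum_congr rfl
          intro b _
          beta_reduce
          rw [if_pos (by omega), Nat.add_sub_cancel, ← Module.End.mul_apply, ← pow_add]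
          congr 2
          omega
        · intro b hb
          rw [Finset.mem_image] at hb
          obtain ⟨a, ha, rfl⟩ := hb
          rw [Finset.mem_range] at ha ⊢
          omega
        · intro b hb hb'
          beta_reduce
          rw [if_neg, map_zero]
          intro h3
          apply hb'
          rw [Finset.mem_range] at hb
          exact Finset.mem_image.2 ⟨b - (n - 2 * (n - l)), Finset.mem_range.2 (by omega), by omega⟩
    · have h0 : c = 0 := by
        have := hC.sub l c hc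
        rw [hbd _ (by omega)] at this
        exact (Submodule.mem_bot _).1 this
      refine ⟨fun _ => 0, fun b _ => ⟨hC.zero _, fun h => absurd rfl h, map_zero _⟩, ?_⟩
      rw [h0]
      simp

end AP

end Decomp

variable {k : Type u} [Field k] {𝒱 : VarClass k} {ops : CycleOps 𝒱}
  {W : WeilCohomology.{u, v} ops} {X Y : 𝒱.Obj} {D : X.Cycles} {f : Module.End W.K (W.H X)}

/-- The algebraic classes form a rational Lefschetz structure. -/
lemma ap_alg (F : Fr W X D f) :
    AP (W.gr X) X.dim (LinearMap.mulLeft W.K (W.cl X D)) (algClasses W X) where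
  sub := fun l c hc => alg_gr hc
  zero l := alg_zero l
  add := fun l c hc d hd => alg_add hc hd
  neg := fun l c hc => alg_neg hc
  map_L := by
    rintro l _ ⟨z, hz, rfl⟩
    refine ⟨ops.mul D z, ?_, by rw [W.cl_mul]; rfl⟩
    rw [add_comm]
    exact ops.mul_mem F.hD hz
  hl := by
    rintro l hl _ ⟨z, hz, rfl⟩
    obtain ⟨z', hz', h⟩ := F.lefschetzA l hl z hz
    exact ⟨W.cl X z', ⟨z', hz', rfl⟩, by rw [← h, cl_divPow]⟩

section Cyc

/-- The primitive cycles of codimension `n`. -/
def PM (W : WeilCohomology.{u, v} ops) (X : 𝒱.Obj) (D : X.Cycles) (n : ℕ) :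
    Submodule ℚ X.Cycles where
  carrier := {z | Primitive W X D n z}
  add_mem' := by
    rintro z w ⟨hz, hz'⟩ ⟨hw, hw'⟩
    refine ⟨hz.add hw, ?_⟩
    rw [cl_divPow, map_add, map_add, ← cl_divPow, ← cl_divPow, hz', hw', add_zero]
  zero_mem' := ⟨SmVar.IsCyc.zero _ _, by rw [cl_divPow, map_zero, map_zero]⟩
  smul_mem' := by
    rintro q z ⟨hz, hz'⟩
    refine ⟨hz.smul q, ?_⟩
    rw [cl_divPow, W.cl_smul, map_smul, ← cl_divPow, hz', smul_zero]

lemma mem_PM {n : ℕ} {z : X.Cycles} : z ∈ PM W X D n ↔ Primitive W X D n z := Iff.rfl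

lemma pairing_cast (hD : X.IsCyc 1 D) {n : ℕ} (hn : 2 * n ≤ X.dim) {z w : X.Cycles}
    (hz : X.IsCyc n z) (hw : X.IsCyc n w) :
    ((pairing ops X D n z w : ℚ) : W.K) = (-1 : W.K) ^ n *
      W.tr X (W.cl X z * ((LinearMap.mulLeft W.K (W.cl X D)) ^ (X.dim - 2 * n)) (W.cl X w)) := by
  have h1 := ops.mul_mem hz (divPow_mem (ops := ops) hD (X.dim - 2 * n) hw)
  rw [show n + (n + (X.dim - 2 * n)) = X.dim by omega] at h1
  rw [pairing, Rat.cast_mul, ← W.tr_cl h1, W.cl_mul, cl_divPow]
  push_cast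
  rfl

lemma L_pow_self (hD : X.IsCyc 1 D) (m : ℕ) (a b : W.H X) :
    W.tr X (((LinearMap.mulLeft W.K (W.cl X D)) ^ m) a * b) =
      W.tr X (a * ((LinearMap.mulLeft W.K (W.cl X D)) ^ m) b) := by
  induction m generalizing a b with
  | zero => simp
  | succ m ih =>
    have h1 := RSys.bil_self (W := W) hD a (((LinearMap.mulLeft W.K (W.cl X D)) ^ m) b)
    rw [bil_apply, bil_apply] at h1
    rw [pow_succ, Module.End.mul_apply, ih, h1, ← Module.End.mul_apply, ← pow_succ', ← pow_succ]

lemma pairing_symm (W : WeilCohomology.{u, v} ops) (hD : X.IsCyc 1 D) {n : ℕ} (hn : 2 * n ≤ X.dim) {z w : X.Cycles}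
    (hz : X.IsCyc n z) (hw : X.IsCyc n w) :
    pairing ops X D n z w = pairing ops X D n w z := by
  have h1 : ((pairing ops X D n z w : ℚ) : W.K) = ((pairing ops X D n w z : ℚ) : W.K) := by
    rw [pairing_cast hD hn hz hw, pairing_cast hD hn hw hz, ← L_pow_self hD,
      W.even_comm (W.cl_mem hw)]
  exact_mod_cast h1

/-- The form on the primitive cycles. -/
noncomputable def BP (W : WeilCohomology.{u, v} ops) (hD : X.IsCyc 1 D) (n : ℕ)
    (hn : 2 * n ≤ X.dim) : PM W X D n →ₗ[ℚ] PM W X D n →ₗ[ℚ] ℚ :=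
  LinearMap.mk₂ ℚ (fun z w => pairing ops X D n (z : X.Cycles) (w : X.Cycles))
    (fun z z' w => by
      have h1 : ((pairing ops X D n ((z + z' : PM W X D n) : X.Cycles) (w : X.Cycles) : ℚ) : W.K) =
          ((pairing ops X D n (z : X.Cycles) (w : X.Cycles) +
            pairing ops X D n (z' : X.Cycles) (w : X.Cycles) : ℚ) : W.K) := by
        rw [Rat.cast_add, pairing_cast hD hn (z + z').2.1 w.2.1, pairing_cast hD hn z.2.1 w.2.1,
          pairing_cast hD hn z'.2.1 w.2.1, Submodule.coe_add, map_add, add_mul, map_add, mul_add]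
      exact_mod_cast h1)
    (fun q z w => by
      have h1 : ((pairing ops X D n ((q • z : PM W X D n) : X.Cycles) (w : X.Cycles) : ℚ) : W.K) =
          ((q * pairing ops X D n (z : X.Cycles) (w : X.Cycles) : ℚ) : W.K) := by
        rw [Rat.cast_mul, pairing_cast hD hn (q • z).2.1 w.2.1, pairing_cast hD hn z.2.1 w.2.1,
          Submodule.coe_smul, W.cl_smul, smul_mul_assoc, map_smul, smul_eq_mul]
        ring
      exact_mod_cast h1)
    (fun z w w' => by
      have h1 : ((pairing ops X D n (z : X.Cycles) ((w + w' : PM W X D n) : X.Cycles) : ℚ) : W.K) =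
          ((pairing ops X D n (z : X.Cycles) (w : X.Cycles) +
            pairing ops X D n (z : X.Cycles) (w' : X.Cycles) : ℚ) : W.K) := by
        rw [Rat.cast_add, pairing_cast hD hn z.2.1 (w + w').2.1, pairing_cast hD hn z.2.1 w.2.1,
          pairing_cast hD hn z.2.1 w'.2.1, Submodule.coe_add, map_add, map_add, mul_add, map_add,
          mul_add]
      exact_mod_cast h1)
    (fun q z w => by
      have h1 : ((pairing ops X D n (z : X.Cycles) ((q • w : PM W X D n) : X.Cycles) : ℚ) : W.K) =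
          ((q * pairing ops X D n (z : X.Cycles) (w : X.Cycles) : ℚ) : W.K) := by
        rw [Rat.cast_mul, pairing_cast hD hn z.2.1 (q • w).2.1, pairing_cast hD hn z.2.1 w.2.1,
          Submodule.coe_smul, W.cl_smul, map_smul, mul_smul_comm, map_smul, smul_eq_mul]
        ring
      exact_mod_cast h1)

lemma BP_apply (hD : X.IsCyc 1 D) {n : ℕ} (hn : 2 * n ≤ X.dim) (z w : PM W X D n) :
    BP W hD n hn z w = pairing ops X D n (z : X.Cycles) (w : X.Cycles) := rfl

lemma BP_symm (hD : X.IsCyc 1 D) {n : ℕ} (hn : 2 * n ≤ X.dim) (z w : PM W X D n) :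
    BP W hD n hn z w = BP W hD n hn w z := pairing_symm W hD hn z.2.1 w.2.1

/-- Existence of a maximal orthogonal family of primitive cycles. -/
lemma exists_prim (W : WeilCohomology.{u, v} ops) (hD : X.IsCyc 1 D) {n : ℕ}
    (hn : 2 * n ≤ X.dim) : ∃ m, ∃ x : Fin m → PM W X D n, OM (BP W hD n hn) x := by
  apply exists_OM (BP_symm hD hn) (N := Module.finrank W.K (W.H X))
  intro m x h1 h2
  have hli : LinearIndependent W.K (fun i => W.cl X (x i : X.Cycles)) := by
    rw [Fintype.linearIndependent_iff]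
    intro g hg i
    have h3 := congrArg (fun a => (-1 : W.K) ^ n * W.tr X (a *
      ((LinearMap.mulLeft W.K (W.cl X D)) ^ (X.dim - 2 * n)) (W.cl X (x i : X.Cycles)))) hg
    simp only [Finset.sum_mul, zero_mul, map_zero, map_sum, smul_mul_assoc, map_smul,
      smul_eq_mul, mul_zero, Finset.mul_sum] at h3
    rw [Finset.sum_eq_single i] at h3
    · have h4 := pairing_cast (W := W) hD hn (x i).2.1 (x i).2.1
      have h5 : g i * ((pairing ops X D n (x i : X.Cycles) (x i : X.Cycles) : ℚ) : W.K) = 0 := by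
        rw [h4, ← h3]; ring
      rcases mul_eq_zero.1 h5 with h | h
      · exact h
      · exfalso
        apply h1 i
        rw [BP_apply]
        exact_mod_cast h
    · intro j _ hj
      have h4 := pairing_cast (W := W) hD hn (x j).2.1 (x i).2.1
      have h5 := h2 j i hj
      rw [BP_apply] at h5
      rw [h5, Rat.cast_zero] at h4
      rw [mul_left_comm, ← h4, mul_zero]
    · intro h; exact absurd (Finset.mem_univ _) h
  have := hli.fintype_card_le_finrank
  rwa [Fintype.card_fin] at this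

lemma hasFamily_one (hD : X.IsCyc 1 D) {n : ℕ} (hn : 2 * n ≤ X.dim) (r : ℕ) :
    HasFamily W X D n 1 r ↔ PosFam (fun x y => BP W hD n hn x y) r := by
  constructor
  · rintro ⟨z, h1, h2, h3⟩
    exact ⟨fun i => ⟨z i, h1 i⟩, fun i => by have := h2 i; rwa [one_mul] at this, h3⟩
  · rintro ⟨z, h1, h2⟩
    exact ⟨fun i => z i, fun i => (z i).2, fun i => by rw [one_mul]; exact h1 i, h2⟩

lemma hasFamily_neg (hD : X.IsCyc 1 D) {n : ℕ} (hn : 2 * n ≤ X.dim) (r : ℕ) :
    HasFamily W X D n (-1) r ↔ PosFam (fun x y => -BP W hD n hn x y) r := by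
  constructor
  · rintro ⟨z, h1, h2, h3⟩
    exact ⟨fun i => ⟨z i, h1 i⟩, fun i => by have := h2 i; rwa [neg_one_mul] at this,
      fun i j hij => neg_eq_zero.2 (h3 i j hij)⟩
  · rintro ⟨z, h1, h2⟩
    exact ⟨fun i => z i, fun i => (z i).2, fun i => by rw [neg_one_mul]; exact h1 i,
      fun i j hij => neg_eq_zero.1 (h2 i j hij)⟩

/-- The signature in terms of a maximal orthogonal family. -/
lemma sig_eq (hD : X.IsCyc 1 D) {n : ℕ} (hn : 2 * n ≤ X.dim) {ι : Type*} [Fintype ι]
    {x : ι → PM W X D n} (h : OM (BP W hD n hn) x) :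
    sig W X D n = ∑ i, ((SignType.sign (BP W hD n hn (x i) (x i)) : SignType) : ℤ) := by
  rw [← h.signature_eq (BP_symm hD hn), sig, posIdx, posIdx]
  congr 3
  · ext r; exact hasFamily_one hD hn r
  · ext r; exact hasFamily_neg hD hn r

lemma bddAbove_family (W : WeilCohomology.{u, v} ops) (hD : X.IsCyc 1 D) {n : ℕ}
    (hn : 2 * n ≤ X.dim) : BddAbove {r | HasFamily W X D n 1 r} ∧
      BddAbove {r | HasFamily W X D n (-1) r} := by
  obtain ⟨m, x, hx⟩ := exists_prim W hD hn
  constructor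
  · have := hx.bddAbove (BP_symm hD hn)
    convert this using 3
    exact hasFamily_one hD hn _
  · have := hx.neg.bddAbove (fun x y => by
      rw [LinearMap.neg_apply, LinearMap.neg_apply, LinearMap.neg_apply, LinearMap.neg_apply,
        BP_symm])
    convert this using 3
    exact hasFamily_neg hD hn _

end Cyc

section Form

variable (F : Fr W X D f)

include F

lemma bf_L_pow {n : ℕ} (hn : 2 * n ≤ X.dim) {x : W.H X} (hx : x ∈ W.gr X (2 * n))
    (hp : ((LinearMap.mulLeft W.K (W.cl X D)) ^ (X.dim - 2 * n + 1)) x = 0) {j : ℕ}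
    (hj : j ≤ X.dim - 2 * n) (u : W.H X) :
    bf W X D f u (((LinearMap.mulLeft W.K (W.cl X D)) ^ j) x) =
      ((j.factorial * ((X.dim - 2 * n - j).factorial : ℚ)⁻¹ : ℚ) : W.K) * ((-1 : W.K) ^ n *
        W.tr X (u * ((LinearMap.mulLeft W.K (W.cl X D)) ^ (X.dim - 2 * n - j)) x)) := by
  set L := LinearMap.mulLeft W.K (W.cl X D) with hL
  have h2 : wt (W.isInternal X) X.dim x = -((X.dim - 2 * n : ℕ) : W.K) • x := by
    rw [Fr.wt_gr hx, Nat.cast_sub hn]
    congr 1
    push_cast
    ring
  have h1 : f x = 0 := F.sl2.f_eq_zero h2 hp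
  have h3 : wop W X D f ((L ^ j) x) =
      ((-1 : W.K) ^ j * (j.factorial * ((X.dim - 2 * n - j).factorial : W.K)⁻¹)) •
        (L ^ (X.dim - 2 * n - j)) x := by
    rw [wop, weyl_pow (wey_e F.sl2), wey_lowest F.sl2 h1 h2, map_smul,
      Sl2.f_pow_e_pow F.sl2 h1 h2 hj, smul_smul, smul_smul]
    congr 1
    have h3 : ((X.dim - 2 * n).factorial : W.K) ≠ 0 := by
      exact_mod_cast Nat.factorial_ne_zero _
    field_simp
  have h4 : (L ^ j) x ∈ W.gr X (2 * n + 2 * j) := pow_L_mem (mulLeft_isHom F.hD) hx j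
  rw [bf_apply, st_apply h4, h3, smul_smul, mul_smul_comm, map_smul, smul_eq_mul, ← mul_add,
    sg_two_mul]
  have h5 : (-1 : W.K) ^ (n + j) * (-1 : W.K) ^ j = (-1) ^ n := by
    rw [pow_add, mul_assoc, ← mul_pow]; simp
  push_cast
  linear_combination ((j.factorial : W.K) * ((X.dim - 2 * n - j).factorial : W.K)⁻¹ *
    W.tr X (u * (L ^ (X.dim - 2 * n - j)) x)) * h5

end Form

end Pool.Agent.W539.Ker
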