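import Pool.Agent.W552.Nest
import Pool.Agent.W552.Main

/-!
# Algebraic operators, their adjoints, weights and traces
-/

open CategoryTheory AlgebraicGeometry Finset

universe u v

namespace Pool.Agent.W539.Ker

open Pool.Agent.H914 Pool.Agent.H914.VarClass Pool.Agent.H914.VarClass.Obj
  Pool.Agent.H914.WeilCohomology Pool.Agent.H281R3.HT Pool.Agent.W552

variable {k : Type u} [Field k] {𝒱 : VarClass k} {ops : CycleOps 𝒱}
  {W : WeilCohomology.{u, v} ops} {X Y Z : 𝒱.Obj}

/-- A polarized variety which satisfies the Lefschetz standard conjecture, with its operators. -/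
structure Gd (W : WeilCohomology.{u, v} ops) (X : 𝒱.Obj) (D : X.Cycles)
    (f : Module.End W.K (W.H X)) : Prop where
  fr : Fr W X D f
  ls : LefStr (W.isInternal X) X.dim (LinearMap.mulLeft W.K (W.cl X D)) f
  sa : AOp W X X (st W X D f)
  pa : AOp W X X (par (W.isInternal X))

lemma exists_gd {D : X.Cycles} (hD : X.IsCyc 1 D) (hHL : HardLefschetz W X D)
    (hB : LefschetzB W X D) : ∃ f, Gd W X D f := by
  obtain ⟨f, F, t⟩ := exists_fr hD hHL hB
  have hp := proj_aop hD hHL hB
  exact ⟨f, F, t, st_aop F hp, par_aop hp⟩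

section One

variable {D : X.Cycles} {f : Module.End W.K (W.H X)} (G : Gd W X D f)

include G

lemma Gd.st_st : st W X D f * st W X D f = 1 := G.ls.star_star

lemma Gd.st_st_apply (x : W.H X) : st W X D f (st W X D f x) = x := by
  rw [← Module.End.mul_apply, G.st_st, Module.End.one_apply]

lemma Gd.symm {i j : ℕ} {p q : W.H X} (hp : p ∈ W.gr X i)
    (hq : q ∈ W.gr X j) : bf W X D f q p = (-1 : W.K) ^ i * bf W X D f p q := by
  exact G.ls.form_symm (B := bil W X) (fun p q => RSys.bil_self G.fr.hD p q)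
    (fun i j a ha b hb hij => W.tr_eq_zero (W.mul_mem ha hb) hij)
    (fun i j a ha b hb => by
      rw [bil_apply, bil_apply, W.comm ha hb, map_smul, smul_eq_mul]) hp hq

lemma Gd.sy : Sy W X D f := by
  intro x y
  refine gr_induction (W.isInternal X) (p := fun y => bf W X D f x y =
    bf W X D f (par (W.isInternal X) y) x) ?_ ?_ y
  swap
  · intro y y' hy hy'
    rw [map_add, hy, hy', map_add, map_add, LinearMap.add_apply]
  intro j y hy
  refine gr_induction (W.isInternal X) (p := fun x => bf W X D f x y =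
    bf W X D f (par (W.isInternal X) y) x) ?_ ?_ x
  swap
  · intro x x' hx hx'
    rw [map_add, LinearMap.add_apply, hx, hx', map_add]
  intro i x hx
  rw [par, scal_apply _ _ hy, map_smul, LinearMap.smul_apply, smul_eq_mul]
  exact G.symm hy hx

lemma Gd.nondeg {z : W.H X} (h : ∀ y, bf W X D f y z = 0) : z = 0 := by
  have h1 : st W X D f z = 0 := nondeg_right (fun b => h b)
  have h2 := congrArg (st W X D f) h1
  rwa [G.st_st_apply, map_zero] at h2

lemma Gd.trace_rat {u : Module.End W.K (W.H X)} (h : AOp W X X u) :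
    ∃ q : ℚ, LinearMap.trace W.K (W.H X) u = q := by
  obtain ⟨x, hx, hx'⟩ := G.pa.mul h
  have h1 : H914.par (W.isInternal X) * W.corr x = u := by
    rw [hx', ← mul_assoc, H914.par_mul_par, one_mul]
  rw [← h1, trace_par_corr]
  exact (hx.map _).tr

/-- The parity operator is self-adjoint. -/
lemma Gd.par_self (a b : W.H X) :
    bf W X D f (par (W.isInternal X) a) b = bf W X D f a (par (W.isInternal X) b) := by
  refine gr_induction (W.isInternal X) (p := fun a => bf W X D f (par (W.isInternal X) a) b =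
    bf W X D f a (par (W.isInternal X) b)) ?_ ?_ a
  swap
  · intro a a' ha ha'
    rw [map_add, map_add, LinearMap.add_apply, ha, ha', map_add, LinearMap.add_apply]
  intro i a ha
  refine gr_induction (W.isInternal X) (p := fun b => bf W X D f (par (W.isInternal X) a) b =
    bf W X D f a (par (W.isInternal X) b)) ?_ ?_ b
  swap
  · intro b b' hb hb'
    rw [map_add, hb, hb', map_add, map_add]
  intro j b hb
  rw [par, scal_apply _ _ ha, scal_apply _ _ hb, map_smul, LinearMap.smul_apply, map_smul]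
  by_cases hij : i = j
  · rw [hij]
  · rw [G.fr.bf_deg ha hb hij, smul_zero, smul_zero]

/-- The weight operator is self-adjoint. -/
lemma Gd.wt_self (a b : W.H X) :
    bf W X D f (wt (W.isInternal X) X.dim a) b = bf W X D f a (wt (W.isInternal X) X.dim b) := by
  refine gr_induction (W.isInternal X) (p := fun a => bf W X D f (wt (W.isInternal X) X.dim a) b =
    bf W X D f a (wt (W.isInternal X) X.dim b)) ?_ ?_ a
  swap
  · intro a a' ha ha'
    rw [map_add, map_add, LinearMap.add_apply, ha, ha', map_add, LinearMap.add_apply]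
  intro i a ha
  refine gr_induction (W.isInternal X) (p := fun b => bf W X D f (wt (W.isInternal X) X.dim a) b =
    bf W X D f a (wt (W.isInternal X) X.dim b)) ?_ ?_ b
  swap
  · intro b b' hb hb'
    rw [map_add, hb, hb', map_add, map_add]
  intro j b hb
  rw [Fr.wt_gr ha, Fr.wt_gr hb, map_smul, LinearMap.smul_apply, map_smul]
  by_cases hij : i = j
  · rw [hij]
  · rw [G.fr.bf_deg ha hb hij, smul_zero, smul_zero]

/-- The star operator is self-adjoint. -/
lemma Gd.st_self (a b : W.H X) :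
    bf W X D f (st W X D f a) b = bf W X D f a (st W X D f b) := by
  rw [bf_apply, bf_apply, G.st_st_apply]
  refine gr_induction (W.isInternal X) (p := fun a => W.tr X (st W X D f a * st W X D f b) =
    W.tr X (a * b)) ?_ ?_ a
  swap
  · intro a a' ha ha'
    rw [map_add, add_mul, map_add, ha, ha', add_mul, map_add]
  intro i a ha
  refine gr_induction (W.isInternal X) (p := fun b => W.tr X (st W X D f a * st W X D f b) =
    W.tr X (a * b)) ?_ ?_ b
  swap
  · intro b b' hb hb'
    rw [map_add, mul_add, map_add, hb, hb', mul_add, map_add]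
  intro j b hb
  by_cases hi : i ≤ 2 * X.dim
  swap
  · rw [W.gr_eq_bot X i (by omega)] at ha
    rw [(Submodule.mem_bot _).1 ha]; simp
  by_cases hj : j ≤ 2 * X.dim
  swap
  · rw [W.gr_eq_bot X j (by omega)] at hb
    rw [(Submodule.mem_bot _).1 hb]; simp
  by_cases hij : i + j = 2 * X.dim
  · have h1 := G.ls.w_self (B := bil W X) (fun p q => RSys.bil_self G.fr.hD p q)
      (fun i j a ha b hb hij => W.tr_eq_zero (W.mul_mem ha hb) hij) a
      (wey (LinearMap.mulLeft W.K (W.cl X D)) f b)
    rw [G.ls.w_sq hb, bil_apply, bil_apply] at h1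
    rw [st_apply ha, st_apply hb, smul_mul_assoc, mul_smul_comm, smul_smul, map_smul, wop]
    rw [h1, mul_smul_comm, map_smul, smul_smul]
    have h2 := sg_compl hj
    rw [show 2 * X.dim - j = i by omega] at h2
    have h3 : (sg i : W.K) * (sg j : W.K) * (-1 : W.K) ^ (X.dim + j) = 1 := by
      have h4 : sg i * sg j * (-1) ^ (X.dim + j) = 1 := by
        rw [← h2]
        calc sg i * sg j * (sg i * sg j) = (sg i * sg i) * (sg j * sg j) := by ring
          _ = 1 := by rw [sg_sq, sg_sq, one_mul]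
      exact_mod_cast congrArg (Int.cast (R := W.K)) h4
    rw [h3, one_smul]
  · rw [W.tr_eq_zero (W.mul_mem ha hb) hij]
    exact W.tr_eq_zero (W.mul_mem (G.ls.star_mem hi ha) (G.ls.star_mem hj hb)) (by omega)

end One

/-- The operator `u` raises the weight by `m`. -/
def Hm (W : WeilCohomology.{u, v} ops) {X Y : 𝒱.Obj} (m : ℤ) (u : W.H X →ₗ[W.K] W.H Y) : Prop :=
  wt (W.isInternal Y) Y.dim ∘ₗ u = u ∘ₗ wt (W.isInternal X) X.dim + (m : W.K) • u

lemma Hm.apply {m : ℤ} {u : W.H X →ₗ[W.K] W.H Y} (h : Hm W m u) (x : W.H X) :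
    wt (W.isInternal Y) Y.dim (u x) = u (wt (W.isInternal X) X.dim x) + (m : W.K) • u x :=
  congrArg (fun F => F x) h

lemma Hm.comp {m m' : ℤ} {u : W.H X →ₗ[W.K] W.H Y} {u' : W.H Y →ₗ[W.K] W.H Z}
    (h' : Hm W m' u') (h : Hm W m u) : Hm W (m' + m) (u' ∘ₗ u) := by
  apply LinearMap.ext
  intro x
  have h1 := h'.apply (u x)
  rw [h.apply x, map_add, map_smul] at h1
  rw [LinearMap.comp_apply, LinearMap.comp_apply, h1, LinearMap.add_apply, LinearMap.smul_apply,
    LinearMap.comp_apply, LinearMap.comp_apply, LinearMap.comp_apply]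
  push_cast
  module

lemma Hm.add {m : ℤ} {u u' : W.H X →ₗ[W.K] W.H Y} (h : Hm W m u) (h' : Hm W m u') :
    Hm W m (u + u') := by
  rw [Hm, LinearMap.comp_add, h, h', LinearMap.add_comp]
  module

lemma Hm.zero {m : ℤ} : Hm W m (0 : W.H X →ₗ[W.K] W.H Y) := by
  rw [Hm, LinearMap.comp_zero, LinearMap.zero_comp, smul_zero, add_zero]

lemma Hm.smul {m : ℤ} {u : W.H X →ₗ[W.K] W.H Y} (c : W.K) (h : Hm W m u) :
    Hm W m (c • u) := by
  rw [Hm, LinearMap.comp_smul, h, LinearMap.smul_comp]
  module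

lemma Hm.one : Hm W 0 (LinearMap.id : W.H X →ₗ[W.K] W.H X) := by
  rw [Hm, LinearMap.comp_id, LinearMap.id_comp]
  simp

lemma Hm.sum {m : ℤ} {κ : Type*} (s : Finset κ) {u : κ → (W.H X →ₗ[W.K] W.H Y)}
    (h : ∀ i ∈ s, Hm W m (u i)) : Hm W m (∑ i ∈ s, u i) := by
  classical
  induction s using Finset.induction_on with
  | empty => rw [Finset.sum_empty]; exact Hm.zero
  | insert a s ha ih =>
    rw [Finset.sum_insert ha]
    exact (h a (by simp)).add (ih (fun i hi => h i (by simp [hi])))

section Two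

variable {D : X.Cycles} {f : Module.End W.K (W.H X)} (G : Gd W X D f) {E : Y.Cycles}
  {g : Module.End W.K (W.H Y)} (G' : Gd W Y E g)

include G G'

/-- The adjoint of an algebraic operator is algebraic. -/
lemma Gd.adj {u : W.H X →ₗ[W.K] W.H Y} (h : AOp W X Y u) :
    ∃ u', AOp W Y X u' ∧ ∀ p q, bf W Y E g (u p) q = bf W X D f p (u' q) := by
  obtain ⟨v, hv, hv'⟩ := h.adj
  refine ⟨st W X D f ∘ₗ v ∘ₗ st W Y E g, G.sa.comp (hv.comp G'.sa), ?_⟩
  intro p q
  rw [bf_apply, bf_apply, hv', LinearMap.comp_apply, LinearMap.comp_apply, G.st_st_apply]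

/-- The weight of the adjoint. -/
lemma Gd.hm_adj {m : ℤ} {u : W.H X →ₗ[W.K] W.H Y} {u' : W.H Y →ₗ[W.K] W.H X}
    (h : ∀ p q, bf W Y E g (u p) q = bf W X D f p (u' q)) (hu : Hm W m u) : Hm W (-m) u' := by
  apply LinearMap.ext
  intro y
  rw [← sub_eq_zero]
  apply G.nondeg
  intro x
  rw [map_sub, LinearMap.comp_apply, LinearMap.add_apply, LinearMap.comp_apply,
    LinearMap.smul_apply, map_add, map_smul, ← G.wt_self, ← h, ← h, ← h, ← G'.wt_self,
    hu.apply, map_add, LinearMap.add_apply, map_smul, LinearMap.smul_apply]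
  push_cast
  simp only [smul_eq_mul]
  ring

/-- The form on the classes as a trace (polarized). -/
theorem Gd.trace_th {c c' : W.H (X.prod Y)} (hc : AS W _ c) (hc' : AS W _ c')
    {u' : W.H Y →ₗ[W.K] W.H X}
    (hu : ∀ a b, bf W Y E g (th W D f c' a) b = bf W X D f a (u' b)) :
    LinearMap.trace W.K (W.H X) (u' ∘ₗ th W D f c) =
      bf W (X.prod Y) (ops.pull (fst X Y) D + ops.pull (snd X Y) E) (extSum W f g) c' c := by
  obtain ⟨bX⟩ := exists_HB W X
  obtain ⟨bY⟩ := exists_HB W Y
  have F := G.fr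
  have F' := G'.fr
  have h1 : u' ∘ₗ th W D f c = ∑ x : Fin bX.N × Fin bY.N, ((bX.ex bY).repr c x) •
      (bf W X D f (bX.e x.1)).smulRight (u' (bY.e x.2)) := by
    apply LinearMap.ext
    intro z
    rw [LinearMap.comp_apply, th_coord F bX bY hc, map_sum, LinearMap.sum_apply]
    apply Finset.sum_congr rfl
    intro x _
    rw [map_smul, LinearMap.smul_apply, LinearMap.smulRight_apply, smul_smul]
  rw [h1, map_sum]
  have h2 : ∀ x : Fin bX.N × Fin bY.N, LinearMap.trace W.K (W.H X) (((bX.ex bY).repr c x) •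
      (bf W X D f (bX.e x.1)).smulRight (u' (bY.e x.2))) = ∑ y : Fin bX.N × Fin bY.N,
      (bX.ex bY).repr c' y * (bX.ex bY).repr c x *
        (bf W X D f (bX.e y.1) (bX.e x.1) * bf W Y E g (bY.e y.2) (bY.e x.2)) := by
    intro x
    rw [map_smul, LinearMap.trace_smulRight, ← hu, th_coord F bX bY hc', map_sum,
      LinearMap.sum_apply, smul_eq_mul, Finset.mul_sum]
    apply Finset.sum_congr rfl
    intro y _
    rw [map_smul, LinearMap.smul_apply, smul_eq_mul]
    ring
  rw [Finset.sum_congr rfl (fun x _ => h2 x), Finset.sum_comm]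
  conv_rhs => rw [← (bX.ex bY).sum_repr c, ← (bX.ex bY).sum_repr c']
  rw [map_sum (bf W (X.prod Y) (ops.pull (fst X Y) D + ops.pull (snd X Y) E) (extSum W f g)),
    LinearMap.sum_apply]
  apply Finset.sum_congr rfl
  intro y _
  rw [map_sum]
  apply Finset.sum_congr rfl
  intro x _
  rw [map_smul, map_smul, LinearMap.smul_apply, smul_eq_mul, smul_eq_mul]
  obtain ⟨y1, y2⟩ := y
  obtain ⟨x1, x2⟩ := x
  rw [HB.ex_apply, HB.ex_apply, F.bf_ext F']
  ring

/-- **The form on the classes as a trace.** -/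
theorem Gd.trace_corr {c c' : W.H (X.prod Y)} (hc : AS W _ c) (hc' : AS W _ c')
    {u' : W.H Y →ₗ[W.K] W.H X}
    (hu : ∀ a b, bf W Y E g (W.corr c' a) b = bf W X D f a (u' b)) :
    LinearMap.trace W.K (W.H X) (u' ∘ₗ W.corr c) =
      bf W (X.prod Y) (ops.pull (fst X Y) D + ops.pull (snd X Y) E) (extSum W f g) c' c := by
  have h1 := G.trace_th G' hc hc' (u' := (st W X D f * par (W.isInternal X)) ∘ₗ u') (by
    intro a b
    rw [th, LinearMap.comp_apply, hu, Module.End.mul_apply, G.par_self, G.st_self,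
      LinearMap.comp_apply, Module.End.mul_apply])
  have h2 : ((st W X D f * par (W.isInternal X)) ∘ₗ u') ∘ₗ th W D f c =
      (st W X D f * par (W.isInternal X)) * ((u' ∘ₗ W.corr c) *
        (par (W.isInternal X) * st W X D f)) := rfl
  have h3 : (par (W.isInternal X) * st W X D f) * (st W X D f * par (W.isInternal X)) = 1 := by
    rw [mul_assoc, ← mul_assoc (st W X D f), G.st_st, one_mul, H914.par_mul_par]
  rw [← h1, h2, LinearMap.trace_mul_comm, mul_assoc, h3, mul_one]

end Two

/-- The weight of a class on the product. -/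
lemma corr_wt (c : W.H (X.prod Y)) : W.corr (wt (W.isInternal (X.prod Y)) (X.prod Y).dim c) =
    wt (W.isInternal Y) Y.dim ∘ₗ W.corr c - W.corr c ∘ₗ wt (W.isInternal X) X.dim := by
  refine gr_induction (W.isInternal (X.prod Y)) (p := fun c =>
    W.corr (wt (W.isInternal (X.prod Y)) (X.prod Y).dim c) =
    wt (W.isInternal Y) Y.dim ∘ₗ W.corr c - W.corr c ∘ₗ wt (W.isInternal X) X.dim) ?_ ?_ c
  swap
  · intro c c' hc hc'
    rw [map_add, corr_add, hc, hc', corr_add, LinearMap.comp_add, LinearMap.add_comp]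
    abel
  intro m c hc
  rw [Fr.wt_gr hc, corr_smul]
  apply gr_ext (W.isInternal X)
  intro i x hx
  rw [LinearMap.smul_apply, LinearMap.sub_apply, LinearMap.comp_apply, LinearMap.comp_apply,
    Fr.wt_gr hx, map_smul]
  have h1 := W.push_mem (snd X Y) (W.mul_mem hc (W.map_mem (fst X Y) hx))
  rw [← corr_apply] at h1
  by_cases hm : ∃ l : ℕ, (l : ℤ) = ((m + i : ℕ) : ℤ) + 2 * ((Y.dim : ℤ) - (X.prod Y).dim)
  · obtain ⟨l, hl⟩ := hm
    rw [← hl, grZ_natCast] at h1
    rw [Fr.wt_gr h1, ← sub_smul]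
    congr 1
    have h2 : ((l : ℤ) : W.K) = ((((m + i : ℕ) : ℤ) + 2 * ((Y.dim : ℤ) - (X.prod Y).dim) : ℤ) :
      W.K) := by rw [hl]
    rw [dim_prod] at h2 ⊢
    push_cast at h2 ⊢
    rw [h2]
    ring
  · have hneg : ((m + i : ℕ) : ℤ) + 2 * ((Y.dim : ℤ) - (X.prod Y).dim) < 0 := by
      by_contra h0
      exact hm ⟨_, Int.toNat_of_nonneg (by omega)⟩
    rw [grZ_of_neg hneg] at h1
    rw [(Submodule.mem_bot _).1 h1]
    simp

lemma hm_corr {m : ℤ} {c : W.H (X.prod Y)} : Hm W m (W.corr c) ↔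
    wt (W.isInternal (X.prod Y)) (X.prod Y).dim c = (m : W.K) • c := by
  constructor
  · intro h
    rw [← sub_eq_zero]
    apply corr_inj
    have h1 : W.corr (wt (W.isInternal (X.prod Y)) (X.prod Y).dim c - (m : W.K) • c) =
        W.corr (wt (W.isInternal (X.prod Y)) (X.prod Y).dim c) - (m : W.K) • W.corr c := by
      ext a
      simp [sub_mul]
    rw [h1, corr_wt, h]
    abel
  · intro h
    have h1 := corr_wt c
    rw [h, corr_smul] at h1
    rw [Hm, h1]
    abel

end Pool.Agent.W539.Ker
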